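import Pool.Agent.H556R4.SU2f

/-!
# Comparison of two states of a system of unit quaternions which satisfy the single site equations
in a finite region
-/

namespace Pool.Agent.Q234.SC

open MeasureTheory Quaternion Function Pool.Agent.H556R4.Dob Pool.Agent.H556R4.SU2

set_option linter.unusedSectionVars false
set_option autoImplicit false

/-- the constant of the transport inequality -/
noncomputable def kc : ℝ := Real.sqrt 3 / 6

lemma kc_nonneg : 0 ≤ kc := by unfold kc; positivity

variable {ι : Type} [DecidableEq ι] [MeasurableSpace S3] [BorelSpace S3]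
  (μ : Measure S3) [IsProbabilityMeasure μ] [μ.IsMulLeftInvariant] [μ.IsMulRightInvariant]
  [μ.IsInvInvariant]

/-- heat bath at `x` -/
noncomputable def hb (fld : ι → (ι → S3) → ℍ[ℝ]) (x : ι) (f : (ι → S3) → ℝ) (V : ι → S3) : ℝ :=
  Eh μ (fun g => f (update V x g)) (fld x V)

/-- `f` depends on the coordinates in `A` only -/
def DepOn (A : Finset ι) (f : (ι → S3) → ℝ) : Prop :=
  ∀ V V' : ι → S3, (∀ y ∈ A, V y = V' y) → f V = f V'

/-- observables -/
structure Ob (A : Finset ι) (D : ι → ℝ) (f : (ι → S3) → ℝ) : Prop where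
  bm : BM f
  dep : DepOn A f
  nn : ∀ y, 0 ≤ D y
  osc : ∀ y V g, |f (update V y g) - f V| ≤ D y * chord g (V y)

/-- the fields at the sites of `S`, with their Lipschitz constants `C` -/
structure Fld (fld : ι → (ι → S3) → ℍ[ℝ]) (A S : Finset ι) (C : ι → ι → ℝ) : Prop where
  sub : S ⊆ A
  meas : ∀ x ∈ S, Measurable fun p : (ι → S3) × S3 => inner ℝ (fld x p.1) (p.2 : ℍ[ℝ])
  self : ∀ x ∈ S, ∀ V g, fld x (update V x g) = fld x V
  dep : ∀ x ∈ S, ∀ V V' : ι → S3, (∀ y ∈ A, V y = V' y) → fld x V = fld x V'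
  nn : ∀ x y, 0 ≤ C x y
  lip : ∀ x ∈ S, ∀ y, y ≠ x → ∀ V k, ‖fld x (update V y k) - fld x V‖ ≤
    C x y * ‖(k : ℍ[ℝ]) - V y‖

/-- states which satisfy the single site equations in `S` -/
structure Sta (fld : ι → (ι → S3) → ℍ[ℝ]) (Ω : Set (ι → S3)) (A S : Finset ι)
    (E : ((ι → S3) → ℝ) → ℝ) : Prop where
  bd : ∀ f, BM f → ∀ c c' : ℝ, (∀ V ∈ Ω, c ≤ f V ∧ f V ≤ c') → c ≤ E f ∧ E f ≤ c'
  inv : ∀ x ∈ S, ∀ f, BM f → DepOn A f → E (hb μ fld x f) = E f

lemma Eh_const (c : ℝ) (h : ℍ[ℝ]) : Eh μ (fun _ => c) h = c := by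
  unfold Eh
  rw [integral_const_mul]
  exact mul_div_cancel_right₀ _ (Zs_pos μ h).ne'

lemma bm_w (h : ℍ[ℝ]) : BM fun s : S3 => Real.exp (inner ℝ h (s : ℍ[ℝ])) :=
  BM.of_continuous (cont_w h)

lemma Eh_sub {φ ψ : S3 → ℝ} (hφ : BM φ) (hψ : BM ψ) (h : ℍ[ℝ]) :
    Eh μ φ h - Eh μ ψ h = Eh μ (fun s => φ s - ψ s) h := by
  unfold Eh
  rw [← sub_div, ← integral_sub ((hφ.mul (bm_w h)).integrable μ) ((hψ.mul (bm_w h)).integrable μ)]
  congr 1
  refine integral_congr_ae (Filter.Eventually.of_forall fun s => ?_)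
  simp only
  ring

lemma Eh_abs_le {φ : S3 → ℝ} {K : ℝ} (hφ : BM φ) (hK : ∀ s, |φ s| ≤ K) (h : ℍ[ℝ]) :
    |Eh μ φ h| ≤ K := by
  unfold Eh
  rw [abs_div, abs_of_pos (Zs_pos μ h), div_le_iff₀ (Zs_pos μ h)]
  refine abs_integral_le_integral_abs.trans ?_
  unfold Zs
  rw [← integral_const_mul]
  refine integral_mono ((hφ.mul (bm_w h)).integrable μ).abs (((bm_w h).integrable μ).const_mul _)
    fun s => ?_
  simp only
  rw [abs_mul, abs_of_pos (Real.exp_pos _)]
  exact mul_le_mul_of_nonneg_right (hK s) (Real.exp_pos _).le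

lemma meas_upd (x : ι) : Measurable fun p : (ι → S3) × S3 => update p.1 x p.2 := by
  refine measurable_pi_lambda _ fun i => ?_
  by_cases h : i = x
  · subst h; simpa using measurable_snd
  · simp only [update_of_ne h]
    exact (measurable_pi_apply i).comp measurable_fst

lemma meas_upd_right (x : ι) (V : ι → S3) : Measurable fun g : S3 => update V x g :=
  (meas_upd x).comp (measurable_const.prodMk measurable_id)

lemma hb_bm {fld : ι → (ι → S3) → ℍ[ℝ]} {x : ι}
    (hm : Measurable fun p : (ι → S3) × S3 => inner ℝ (fld x p.1) (p.2 : ℍ[ℝ]))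
    {f : (ι → S3) → ℝ} (hf : BM f) : BM (hb μ fld x f) := by
  refine ⟨?_, ?_⟩
  · have h1 : Measurable fun p : (ι → S3) × S3 => Real.exp (inner ℝ (fld x p.1) (p.2 : ℍ[ℝ])) :=
      Real.measurable_exp.comp hm
    have h2 : Measurable fun p : (ι → S3) × S3 => f (update p.1 x p.2) *
        Real.exp (inner ℝ (fld x p.1) (p.2 : ℍ[ℝ])) := (hf.meas.comp (meas_upd x)).mul h1
    exact (h2.stronglyMeasurable.integral_prod_right (ν := μ)).measurable.div
      (h1.stronglyMeasurable.integral_prod_right (ν := μ)).measurable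
  · obtain ⟨c, hc⟩ := hf.bdd
    exact ⟨c, fun V => Eh_abs_le μ (hf.comp (meas_upd_right x V)) (fun s => hc _) _⟩

lemma hb_ob {fld : ι → (ι → S3) → ℍ[ℝ]} {A S : Finset ι} {C : ι → ι → ℝ} (hF : Fld fld A S C)
    {x : ι} (hx : x ∈ S) {f : (ι → S3) → ℝ} {D : ι → ℝ} (hf : Ob A D f) :
    Ob A (fun y => if y = x then 0 else D y + kc * C x y * D x) (hb μ fld x f) := by
  refine ⟨hb_bm μ (hF.meas x hx) hf.bm, ?_, ?_, ?_⟩
  · intro V V' h
    unfold hb
    rw [hF.dep x hx V V' h]
    congr 1
    funext g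
    refine hf.dep _ _ fun y hy => ?_
    by_cases hyx : y = x
    · subst hyx; simp
    · rw [update_of_ne hyx, update_of_ne hyx, h y hy]
  · intro y
    split_ifs
    · exact le_rfl
    · exact add_nonneg (hf.nn _) (mul_nonneg (mul_nonneg kc_nonneg (hF.nn _ _)) (hf.nn _))
  · intro y V k
    by_cases hy : y = x
    · subst hy
      simp only [if_true, zero_mul]
      refine le_of_eq ?_
      rw [abs_eq_zero, sub_eq_zero]
      unfold hb
      rw [hF.self y hx]
      simp only [update_idem]
    · simp only [if_neg hy]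
      have hb1 : BM fun g => f (update (update V y k) x g) := hf.bm.comp (meas_upd_right x _)
      have hb2 : BM fun g => f (update V x g) := hf.bm.comp (meas_upd_right x _)
      have e : hb μ fld x f (update V y k) - hb μ fld x f V =
          Eh μ (fun g => f (update (update V y k) x g) - f (update V x g)) (fld x (update V y k)) +
            (Eh μ (fun g => f (update V x g)) (fld x (update V y k)) -
              Eh μ (fun g => f (update V x g)) (fld x V)) := by
        rw [← Eh_sub μ hb1 hb2]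
        unfold hb
        ring
      rw [e, add_mul]
      refine (abs_add_le _ _).trans (add_le_add ?_ ?_)
      · refine Eh_abs_le μ ⟨hb1.meas.sub hb2.meas, ?_⟩ (fun g => ?_) _
        · obtain ⟨b, hb⟩ := hf.bm.bdd
          exact ⟨b + b, fun g => (abs_sub _ _).trans (add_le_add (hb _) (hb _))⟩
        · have h1 := hf.osc y (update V x g) k
          rw [update_of_ne hy] at h1
          show |f (update (update V y k) x g) - f (update V x g)| ≤ _
          rwa [update_comm hy]
      · have h1 := transport μ hb2 (hf.nn x) (fun g g' => by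
          have h2 := hf.osc x (update V x g') g
          rw [update_idem, update_self] at h2
          exact h2) (fld x (update V y k)) (fld x V)
        refine h1.trans ?_
        have h2 := mul_le_mul_of_nonneg_left (hF.lip x hx y hy V k)
          (mul_nonneg kc_nonneg (hf.nn x))
        refine h2.trans (le_of_eq ?_)
        unfold chord
        ring

/-- telescoping -/
lemma tele {A : Finset ι} {D : ι → ℝ} {f : (ι → S3) → ℝ} (hf : Ob A D f) (V V' : ι → S3) :
    |f V' - f V| ≤ ∑ y ∈ A, chord (V' y) (V y) * D y := by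
  have key : ∀ T : Finset ι, |f (fun i => if i ∈ T then V' i else V i) - f V| ≤
      ∑ y ∈ T, chord (V' y) (V y) * D y := by
    intro T
    induction T using Finset.induction_on with
    | empty => simp
    | insert x T hx ih =>
      have e : (fun i => if i ∈ insert x T then V' i else V i) =
          update (fun i => if i ∈ T then V' i else V i) x (V' x) := by
        funext i
        by_cases hi : i = x
        · subst hi; simp
        · simp [hi]
      rw [e, Finset.sum_insert hx]
      have h1 := hf.osc x (fun i => if i ∈ T then V' i else V i) (V' x)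
      simp only [hx, if_false] at h1
      calc _ = |(f (update (fun i => if i ∈ T then V' i else V i) x (V' x)) -
              f (fun i => if i ∈ T then V' i else V i)) +
            (f (fun i => if i ∈ T then V' i else V i) - f V)| := by ring_nf
        _ ≤ _ := (abs_add_le _ _).trans (add_le_add (by rw [mul_comm]; exact h1) ih)
  have h := key A
  rwa [hf.dep (fun i => if i ∈ A then V' i else V i) V' (fun y hy => by simp [hy])] at h

/-- `a` is an estimate for the difference of the two states -/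
def Est (A : Finset ι) (E E' : ((ι → S3) → ℝ) → ℝ) (a : ι → ℝ) : Prop :=
  ∀ f D, Ob A D f → |E f - E' f| ≤ ∑ y ∈ A, a y * D y

variable {A S : Finset ι} {E E' : ((ι → S3) → ℝ) → ℝ} {a : ι → ℝ} {C : ι → ι → ℝ}
  {fld : ι → (ι → S3) → ℍ[ℝ]} {Ω : Set (ι → S3)}

lemma Est.mono {a' : ι → ℝ} (h : Est A E E' a) (haa : ∀ y ∈ A, a y ≤ a' y) : Est A E E' a' := by
  intro f D hf
  exact (h f D hf).trans (Finset.sum_le_sum fun y hy => mul_le_mul_of_nonneg_right (haa y hy)
    (hf.nn y))

lemma Est.base (hE : Sta μ fld Ω A S E) (hE' : Sta μ fld Ω A S E')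
    (ha : ∀ V ∈ Ω, ∀ V' ∈ Ω, ∀ y ∈ A, chord (V' y) (V y) ≤ a y) : Est A E E' a := by
  intro f D hf
  set K := ∑ y ∈ A, a y * D y with hK
  have h1 : ∀ V ∈ Ω, ∀ V' ∈ Ω, |f V' - f V| ≤ K := fun V hV V' hV' =>
    (tele hf V V').trans (Finset.sum_le_sum fun y hy =>
      mul_le_mul_of_nonneg_right (ha V hV V' hV' y hy) (hf.nn y))
  have main : ∀ F F' : ((ι → S3) → ℝ) → ℝ, Sta μ fld Ω A S F → Sta μ fld Ω A S F' →
      F f - K ≤ F' f := by
    intro F F' hF hF'
    obtain ⟨b, hb⟩ := hf.bm.bdd
    have h2 : ∀ V ∈ Ω, F f - K ≤ f V := by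
      intro V hV
      have h3 := (hF.bd f hf.bm (f V - K) (f V + K) fun V' hV' => by
        have := abs_le.1 (h1 V hV V' hV')
        constructor <;> linarith [this.1, this.2]).2
      linarith
    exact (hF'.bd f hf.bm (F f - K) b fun V hV => ⟨h2 V hV, (abs_le.1 (hb V)).2⟩).1
  rw [abs_le]
  constructor
  · have := main E' E hE' hE
    linarith
  · have := main E E' hE hE'
    linarith

lemma Est.upd (hF : Fld fld A S C) (hE : Sta μ fld Ω A S E) (hE' : Sta μ fld Ω A S E')
    (h : Est A E E' a) {x : ι} (hx : x ∈ S) :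
    Est A E E' (Function.update a x (∑ y ∈ A.erase x, kc * C x y * a y)) := by
  intro f D hf
  have h1 := h _ _ (hb_ob μ hF hx hf)
  rw [hE.inv x hx f hf.bm hf.dep, hE'.inv x hx f hf.bm hf.dep] at h1
  refine h1.trans (le_of_eq ?_)
  have hxA : x ∈ A := hF.sub hx
  rw [← Finset.add_sum_erase _ _ hxA, ← Finset.add_sum_erase A
    (fun y => Function.update a x (∑ y ∈ A.erase x, kc * C x y * a y) y * D y) hxA]
  simp only [if_true, mul_zero, zero_add, update_self]
  rw [Finset.sum_mul, ← Finset.sum_add_distrib]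
  refine Finset.sum_congr rfl fun y hy => ?_
  have hy' := Finset.ne_of_mem_erase hy
  rw [if_neg hy', update_of_ne hy']
  ring

/-- one sweep over the sites of `S` -/
lemma Est.sweep (hF : Fld fld A S C) (hE : Sta μ fld Ω A S E) (hE' : Sta μ fld Ω A S E')
    {ρ : ℝ} (hρ1 : ρ ≤ 1)
    (hs : ∀ x ∈ S, ∑ y ∈ A.erase x, kc * C x y * a y ≤ a x)
    (hr : ∀ x ∈ S, ∑ y ∈ S.erase x, kc * C x y ≤ ρ)
    {t : ℝ} (ht : 0 ≤ t) (h : Est A E E' (fun y => a y + if y ∈ S then t else 0)) :
    Est A E E' (fun y => a y + if y ∈ S then t * ρ else 0) := by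
  have hkC : ∀ x y, 0 ≤ kc * C x y := fun x y => mul_nonneg kc_nonneg (hF.nn x y)
  have key : ∀ T : Finset ι, T ⊆ S →
      Est A E E' (fun y => a y + if y ∈ S then (if y ∈ T then t * ρ else t) else 0) := by
    intro T
    induction T using Finset.induction_on with
    | empty => intro _; simpa using h
    | insert x T hx ih =>
      intro hT
      have hxS : x ∈ S := hT (Finset.mem_insert_self _ _)
      have h1 := (ih ((Finset.subset_insert _ _).trans hT)).upd μ hF hE hE' hxS
      refine h1.mono fun y _ => ?_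
      by_cases hy : y = x
      · subst hy
        rw [Function.update_self]
        simp only [hxS, if_true, Finset.mem_insert, true_or]
        have e : ∑ z ∈ A.erase y, kc * C y z *
              (a z + if z ∈ S then (if z ∈ T then t * ρ else t) else 0)
            ≤ ∑ z ∈ A.erase y, kc * C y z * a z
              + ∑ z ∈ A.erase y, (if z ∈ S then kc * C y z * t else 0) := by
          rw [← Finset.sum_add_distrib]
          refine Finset.sum_le_sum fun z _ => ?_
          rw [mul_add]
          refine add_le_add le_rfl ?_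
          split_ifs
          · exact mul_le_mul_of_nonneg_left (mul_le_of_le_one_right ht hρ1) (hkC _ _)
          · exact le_rfl
          · rw [mul_zero]
        have e2 : ∑ z ∈ A.erase y, (if z ∈ S then kc * C y z * t else 0)
            = (∑ z ∈ S.erase y, kc * C y z) * t := by
          rw [Finset.sum_mul, ← Finset.sum_filter]
          refine Finset.sum_congr ?_ fun _ _ => rfl
          ext z
          simp only [Finset.mem_filter, Finset.mem_erase]
          exact ⟨fun h => ⟨h.1.1, h.2⟩, fun h => ⟨⟨h.1, hF.sub h.2⟩, h.2⟩⟩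
        rw [e2] at e
        refine e.trans (add_le_add (hs y hxS) ?_)
        rw [mul_comm t]
        exact mul_le_mul_of_nonneg_right (hr y hxS) ht
      · rw [Function.update_of_ne hy]
        simp [hy]
  have := key S (Finset.Subset.refl S)
  refine this.mono fun y _ => ?_
  by_cases hy : y ∈ S <;> simp [hy]

/-- **Comparison.** -/
theorem comp (hF : Fld fld A S C) (hE : Sta μ fld Ω A S E) (hE' : Sta μ fld Ω A S E')
    (ha : ∀ y ∈ A, 0 ≤ a y)
    (hb : ∀ V ∈ Ω, ∀ V' ∈ Ω, ∀ y ∈ A, y ∉ S → chord (V' y) (V y) ≤ a y)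
    {ρ : ℝ} (hρ0 : 0 ≤ ρ) (hρ1 : ρ < 1)
    (hs : ∀ x ∈ S, ∑ y ∈ A.erase x, kc * C x y * a y ≤ a x)
    (hr : ∀ x ∈ S, ∑ y ∈ S.erase x, kc * C x y ≤ ρ) : Est A E E' a := by
  have key : ∀ n : ℕ, Est A E E' (fun y => a y + if y ∈ S then 2 * ρ ^ n else 0) := by
    intro n
    induction n with
    | zero =>
      refine Est.base μ hE hE' fun V hV V' hV' y hy => ?_
      by_cases hyS : y ∈ S
      · simp only [hyS, if_true, pow_zero, mul_one]
        have := chord_cost.le (V' y) (V y)
        have := ha y hy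
        linarith
      · simp only [hyS, if_false, add_zero]
        exact hb V hV V' hV' y hy hyS
    | succ n ih =>
      have := ih.sweep μ hF hE hE' hρ1.le hs hr (mul_nonneg zero_le_two (pow_nonneg hρ0 n))
      simpa [pow_succ, mul_assoc] using this
  intro f D hf
  have hlim : Filter.Tendsto (fun n : ℕ => ∑ y ∈ A, (a y + if y ∈ S then 2 * ρ ^ n else 0) * D y)
      Filter.atTop (nhds (∑ y ∈ A, (a y + 0) * D y)) := by
    refine tendsto_finsetSum _ fun y _ => ?_
    refine Filter.Tendsto.mul_const _ (Filter.Tendsto.const_add _ ?_)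
    by_cases hy : y ∈ S
    · simpa [hy] using (tendsto_pow_atTop_nhds_zero_of_lt_one hρ0 hρ1).const_mul 2
    · simp [hy]
  have := ge_of_tendsto' hlim fun n => key n f D hf
  simpa using this

end Pool.Agent.Q234.SC
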