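import Pool.Agent.Q234.SC.Main

/-!
# Consequences for gauge invariant observables
-/

namespace Pool.Agent.Q234.SC

open MeasureTheory Quaternion Function Pool.Agent.H556R4.Dob Pool.Agent.H556R4.SU2
open scoped Topology

set_option linter.unusedSectionVars false
set_option autoImplicit false

variable {d : ℕ}

/-- Lipschitz functions of the links in `B` -/
structure Lip (B : Finset (Lk ℤ d)) (L : ℝ) (F : (Lk ℤ d → S3) → ℝ) : Prop where
  nn : 0 ≤ L
  lip : ∀ V V' : Lk ℤ d → S3, |F V - F V'| ≤ L * ∑ e ∈ B, ‖(V e : ℍ[ℝ]) - V' e‖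

lemma Lip.cont {B : Finset (Lk ℤ d)} {L : ℝ} {F : (Lk ℤ d → S3) → ℝ} (hF : Lip B L F) :
    Continuous F := by
  rw [continuous_iff_continuousAt]
  intro V
  rw [ContinuousAt, tendsto_iff_dist_tendsto_zero]
  have hc : Continuous fun V' : Lk ℤ d → S3 => L * ∑ e ∈ B, ‖(V' e : ℍ[ℝ]) - V e‖ :=
    continuous_const.mul (continuous_finsetSum _ fun e _ =>
      ((continuous_subtype_val.comp (continuous_apply e)).sub continuous_const).norm)
  have h0 := hc.tendsto V
  simp only [sub_self, norm_zero, Finset.sum_const_zero, mul_zero] at h0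
  refine squeeze_zero (fun _ => dist_nonneg) (fun V' => ?_) h0
  rw [Real.dist_eq]
  exact hF.lip V' V

lemma Lip.dep {B : Finset (Lk ℤ d)} {L : ℝ} {F : (Lk ℤ d → S3) → ℝ} (hF : Lip B L F) :
    DepOn B F := by
  intro V V' h
  have h1 := hF.lip V V'
  rw [Finset.sum_eq_zero (fun e he => by rw [h e he, sub_self, norm_zero]), mul_zero] at h1
  exact sub_eq_zero.1 (abs_nonpos_iff.1 h1)

lemma DepOn.mono {A B : Finset (Lk ℤ d)} (h : A ⊆ B) {F : (Lk ℤ d → S3) → ℝ} (hF : DepOn A F) :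
    DepOn B F := fun V V' h' => hF V V' fun y hy => h' y (h hy)

lemma Lip.upd {B : Finset (Lk ℤ d)} {L : ℝ} {F : (Lk ℤ d → S3) → ℝ} (hF : Lip B L F)
    {x : Lk ℤ d} (hx : x ∉ B) (V : Lk ℤ d → S3) (g : S3) : F (update V x g) = F V :=
  hF.dep _ _ fun y hy => by
    rw [update_of_ne]
    rintro rfl
    exact hx hy

lemma Lip.bdd {B : Finset (Lk ℤ d)} {L : ℝ} {F : (Lk ℤ d → S3) → ℝ} (hF : Lip B L F) :
    ∃ M : ℝ, 0 ≤ M ∧ ∀ V, |F V| ≤ M := by
  refine ⟨|F 1| + L * ∑ e ∈ B, 2, by have := hF.nn; positivity, fun V => ?_⟩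
  have h1 := hF.lip V 1
  have h2 : ∑ e ∈ B, ‖(V e : ℍ[ℝ]) - ((1 : Lk ℤ d → S3) e : ℍ[ℝ])‖ ≤ ∑ e ∈ B, (2 : ℝ) :=
    Finset.sum_le_sum fun e _ => chord_cost.le (V e) ((1 : Lk ℤ d → S3) e)
  have h3 := mul_le_mul_of_nonneg_left h2 hF.nn
  have h4 : |F V| ≤ |F V - F 1| + |F 1| := by
    have := abs_add_le (F V - F 1) (F 1)
    rwa [sub_add_cancel] at this
  linarith

section

variable (o : Fin d) [MeasurableSpace S3] [BorelSpace S3]

lemma Lip.bm {B : Finset (Lk ℤ d)} {L : ℝ} {F : (Lk ℤ d → S3) → ℝ} (hF : Lip B L F) : BM F := by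
  obtain ⟨M, -, hM⟩ := hF.bdd
  exact ⟨hF.cont.measurable, M, hM⟩

lemma Lip.ob {B A : Finset (Lk ℤ d)} {L : ℝ} {F : (Lk ℤ d → S3) → ℝ} (hF : Lip B L F)
    (hBA : B ⊆ A) : Ob A (fun y => if y ∈ B then L else 0) F where
  bm := hF.bm
  dep := hF.dep.mono hBA
  nn y := by split_ifs; exacts [hF.nn, le_rfl]
  osc y V g := by
    by_cases hy : y ∈ B
    · simp only [hy, if_true]
      refine (hF.lip _ _).trans (mul_le_mul_of_nonneg_left ?_ hF.nn)
      rw [Finset.sum_eq_single y]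
      · rw [update_self]; exact le_rfl
      · intro e _ he
        rw [update_of_ne he, sub_self, norm_zero]
      · intro h; exact absurd hy h
    · rw [hF.upd hy, sub_self, abs_zero]
      simp [hy]

variable (μ : Measure S3) [IsProbabilityMeasure μ] [μ.IsMulLeftInvariant] [μ.IsMulRightInvariant]
  [μ.IsInvInvariant]

/-- the boundary term -/
noncomputable def bb (d : ℕ) (m' : ℝ) (r N : ℕ) : ℝ := d * (Real.cosh (m' * r) / Real.cosh (m' * N))

lemma bb_nonneg (m' : ℝ) (r N : ℕ) : 0 ≤ bb d m' r N :=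
  mul_nonneg (Nat.cast_nonneg d) (div_nonneg (Real.cosh_pos _).le (Real.cosh_pos _).le)

lemma Bf_le_bb {m' : ℝ} {r N : ℕ} {y : Lk ℤ d} (hy : y ∈ lks d r) :
    Bf m' N y.1 ≤ bb d m' r N := by
  unfold Bf bb
  have h : ∀ i ∈ (Finset.univ : Finset (Fin d)), Real.cosh (m' * y.1 i) / Real.cosh (m' * N) ≤
      Real.cosh (m' * r) / Real.cosh (m' * N) := by
    intro i _
    refine div_le_div_of_nonneg_right ?_ (Real.cosh_pos _).le
    rw [Real.cosh_le_cosh, abs_mul, abs_mul]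
    refine mul_le_mul_of_nonneg_left ?_ (abs_nonneg _)
    have h1 := mem_lks.1 hy i
    rw [Nat.abs_cast, abs_le]
    constructor
    · exact_mod_cast h1.1
    · exact_mod_cast h1.2
  refine (Finset.sum_le_sum h).trans (le_of_eq ?_)
  rw [Finset.sum_const, Finset.card_univ, Fintype.card_fin, nsmul_eq_mul]

lemma bb_tendsto {m' : ℝ} (hm' : 0 < m') (r : ℕ) :
    Filter.Tendsto (fun N : ℕ => bb d m' r N) Filter.atTop (𝓝 0) := by
  unfold bb
  have h1 : Filter.Tendsto (fun N : ℕ => Real.cosh (m' * N)) Filter.atTop Filter.atTop := by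
    refine Filter.tendsto_atTop_mono (f := fun N : ℕ => (m' * N) / 2) (fun N => ?_) ?_
    · rw [Real.cosh_eq]
      have h2 := Real.add_one_le_exp (m' * N)
      have h3 := Real.exp_pos (-(m' * N))
      linarith
    · exact ((tendsto_natCast_atTop_atTop).const_mul_atTop hm').atTop_div_const two_pos
  have h2 := (h1.inv_tendsto_atTop.const_mul (Real.cosh (m' * r))).const_mul (d : ℝ)
  simpa [div_eq_mul_inv] using h2

/-- the sum which bounds the difference of two states on an observable in the cube `r` -/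
lemma sum_bd {m' : ℝ} (hm' : 0 ≤ m') {T : ℤ → ℝ} (hT0 : ∀ s, 0 ≤ T s) {r N : ℕ} {L Tm : ℝ}
    (hL : 0 ≤ L) (hTm : ∀ s : ℤ, s ≤ r → T s ≤ Tm) (A : Finset (Lk ℤ d)) :
    ∑ y ∈ A, wt o (fun z => 2 * T (z o) + 2 * Bf m' N z) y * (if y ∈ lks d r then L else 0) ≤
      (lks d r).card * (2 * L * (Tm + bb d m' r N)) := by
  have hTm0 : 0 ≤ Tm := (hT0 0).trans (hTm 0 (by positivity))
  have h1 : ∀ y ∈ A, wt o (fun z => 2 * T (z o) + 2 * Bf m' N z) y *
      (if y ∈ lks d r then L else 0) ≤ if y ∈ lks d r then 2 * L * (Tm + bb d m' r N) else 0 := by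
    intro y _
    by_cases hy : y ∈ lks d r
    · simp only [hy, if_true]
      have h2 := Bf_le_bb (m' := m') (N := N) hy
      have h3 := hTm (y.1 o) (mem_lks.1 hy o).2
      have h4 : wt o (fun z => 2 * T (z o) + 2 * Bf m' N z) y ≤ 2 * (Tm + bb d m' r N) := by
        unfold wt
        split_ifs
        · exact mul_nonneg zero_le_two (add_nonneg hTm0 (bb_nonneg _ _ _))
        · linarith
      have := mul_le_mul_of_nonneg_right h4 hL
      linarith
    · simp [hy]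
  refine (Finset.sum_le_sum h1).trans ?_
  rw [← Finset.sum_filter, Finset.sum_const, nsmul_eq_mul]
  refine mul_le_mul_of_nonneg_right ?_ (mul_nonneg (mul_nonneg zero_le_two hL)
    (add_nonneg hTm0 (bb_nonneg _ _ _)))
  exact_mod_cast Finset.card_le_card fun y hy => (Finset.mem_filter.1 hy).2

lemma Eg_one (n : ℕ) (ν : Measure (Lk ℤ d → S3)) [IsProbabilityMeasure ν]
    {F : (Lk ℤ d → S3) → ℝ} (hinv : ∀ γ V, F (gt γ V) = F V) (h : (Lk ℤ d → S3) → ℝ) :
    Eg o n ν h F = (∫ V, F V * h V ∂ν) / ∫ V, h V ∂ν := by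
  unfold Eg gf
  simp only [hinv]

include o in
/-- **Uniqueness**: two states which satisfy the single site equations in the cube `n + 1` nearly
agree on gauge invariant observables in the cube `r` -/
theorem uniq {β m' : ℝ} (hm' : 0 < m')
    (h2 : kc * (2 * |β|) * ((6 * ((d : ℝ) - 2) + 2) * Real.exp m') ≤ 1)
    {n r : ℕ} (hr : r ≤ n + 1) {ν ν' : Measure (Lk ℤ d → S3)} (hν : Gib μ β (n + 1) ν)
    (hν' : Gib μ β (n + 1) ν') {L : ℝ} {F : (Lk ℤ d → S3) → ℝ} (hF : Lip (lks d r) L F)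
    (hinv : ∀ γ V, F (gt γ V) = F V) :
    |∫ V, F V ∂ν - ∫ V, F V ∂ν'| ≤ (lks d r).card * (2 * L * bb d m' r (n + 1)) := by
  have p1 := hν.prob
  have p2 := hν'.prob
  have h := main_est o μ hm' h2 (T := fun _ => 0) (fun _ => le_rfl) (fun s => by simp) hν hν'
    (B := ∅) (fun y hy => absurd hy (Finset.notMem_empty y)) (h := fun _ => 1) (h' := fun _ => 1)
    ⟨measurable_const, 1, fun _ => by simp⟩ ⟨measurable_const, 1, fun _ => by simp⟩
    (fun _ _ _ => rfl) (fun _ _ _ => rfl) one_pos (fun _ => le_rfl) (fun _ => le_rfl)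
    (fun _ _ _ _ => rfl) (fun _ _ _ _ => rfl) F _ (hF.ob (lks_mono hr))
  rw [Eg_one o (n + 1) ν hinv, Eg_one o (n + 1) ν' hinv] at h
  simp only [mul_one, integral_const, probReal_univ, smul_eq_mul, div_one] at h
  refine h.trans ?_
  have h3 := sum_bd (d := d) o hm'.le (T := fun _ => 0) (fun _ => le_rfl) (r := r) (N := n + 1)
    (Tm := 0) hF.nn (fun _ _ => le_rfl) (lks d (n + 1))
  simpa using h3

include o in
/-- **Clustering.** -/
theorem clus {β m m' : ℝ} (hm' : 0 < m')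
    (h1 : kc * (2 * |β|) * (6 * ((d : ℝ) - 2) + 2 * Real.cosh m) ≤ 1)
    (h2 : kc * (2 * |β|) * ((6 * ((d : ℝ) - 2) + 2) * Real.exp m') ≤ 1)
    (hd : 2 ≤ d) (hm : 0 ≤ m)
    {n r : ℕ} (hr : r ≤ n + 1) {ν : Measure (Lk ℤ d → S3)} (hν : Gib μ β (n + 1) ν)
    {L : ℝ} {F : (Lk ℤ d → S3) → ℝ} (hF : Lip (lks d r) L F)
    (hinv : ∀ γ V, F (gt γ V) = F V) {B : Finset (Lk ℤ d)} (hB : B ⊆ lks d (n + 2)) {t : ℤ}
    (hBt : ∀ y ∈ B, t ≤ y.1 o) {L' : ℝ} {H : (Lk ℤ d → S3) → ℝ} (hH : Lip B L' H) {M : ℝ}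
    (hM : ∀ V, |H V| ≤ M) :
    |∫ V, F V * H V ∂ν - (∫ V, F V ∂ν) * ∫ V, H V ∂ν| ≤
      (2 * M + 1) * ((lks d r).card * (2 * L * (Real.exp (m * (r - t)) + bb d m' r (n + 1)))) := by
  have p1 := hν.prob
  have hκ0 : 0 ≤ kc * (2 * |β|) := mul_nonneg kc_nonneg (by positivity)
  have hd2 : (2 : ℝ) ≤ d := by exact_mod_cast hd
  set h' : (Lk ℤ d → S3) → ℝ := fun V => H V + (M + 1) with hh'
  have hHb := hH.bm
  have hb' : BM h' := ⟨hHb.meas.add measurable_const, M + (M + 1) , fun V => by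
    have h3 := hM V
    have h4 : 0 ≤ M := (abs_nonneg _).trans h3
    refine (abs_add_le _ _).trans (add_le_add h3 (le_of_eq (abs_of_nonneg (by linarith))))⟩
  have h := main_est o μ hm' h2 (T := Tf m t) (Tf_nonneg m t) (fun s => ?_) hν hν
    (B := B) (fun y hy => ?_) (h := fun _ => 1) (h' := h')
    ⟨measurable_const, 1, fun _ => by simp⟩ hb'
    (fun _ _ _ => rfl) (fun V V' hVV => ?_) one_pos (fun _ => le_rfl) (fun V => ?_)
    (fun _ _ _ _ => rfl) (fun x hx V g => ?_) F _ (hF.ob (lks_mono hr))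
  rotate_left
  · have h3 := Tf_sup m t s
    have h4 := Tf_nonneg m t s
    have h5 : 6 * ((d : ℝ) - 2) * Tf m t s + (Tf m t (s + 1) + Tf m t (s - 1)) ≤
        (6 * ((d : ℝ) - 2) + 2 * Real.cosh m) * Tf m t s := by linarith
    refine (mul_le_mul_of_nonneg_left h5 hκ0).trans ?_
    have h6 := mul_le_mul_of_nonneg_right h1 h4
    linarith
  · unfold Tf
    refine le_min le_rfl (Real.one_le_exp (mul_nonneg hm (sub_nonneg.2 ?_)))
    exact_mod_cast hBt y hy
  · simp only [hh']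
    rw [hH.dep V V' fun y hy => hVV y (hB hy)]
  · simp only [hh']
    have := (abs_le.1 (hM V)).1
    linarith
  · simp only [hh']
    rw [hH.upd hx]
  rw [Eg_one o (n + 1) ν hinv, Eg_one o (n + 1) ν hinv] at h
  simp only [mul_one, integral_const, probReal_univ, smul_eq_mul, div_one] at h
  have h3 := sum_bd (d := d) o hm'.le (T := Tf m t) (Tf_nonneg m t) (r := r) (N := n + 1)
    (Tm := Real.exp (m * (r - t))) hF.nn (fun s hs => by
      unfold Tf
      refine (min_le_right _ _).trans (Real.exp_le_exp.2 (mul_le_mul_of_nonneg_left ?_ hm))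
      have : (s : ℝ) ≤ r := by exact_mod_cast hs
      linarith) (lks d (n + 1))
  have h4 := h.trans h3
  set δ : ℝ := (lks d r).card * (2 * L * (Real.exp (m * (r - t)) + bb d m' r (n + 1))) with hδ
  have hpos : 0 < ∫ V, h' V ∂ν := integral_pos_of_lb ν hb' one_pos fun V => by
    simp only [hh']
    have := (abs_le.1 (hM V)).1
    linarith
  have e1 : ∫ V, h' V ∂ν = ∫ V, H V ∂ν + (M + 1) := by
    simp only [hh']
    rw [integral_add (hHb.integrable ν) (integrable_const _)]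
    simp
  have e2 : ∫ V, F V * h' V ∂ν = ∫ V, F V * H V ∂ν + (M + 1) * ∫ V, F V ∂ν := by
    have e3 : ∀ V, F V * h' V = F V * H V + (M + 1) * F V := fun V => by simp only [hh']; ring
    simp only [e3]
    rw [integral_add ((hF.bm.mul hHb).integrable ν) ((hF.bm.integrable ν).const_mul _),
      integral_const_mul]
  have h5 : |∫ V, F V * H V ∂ν - (∫ V, F V ∂ν) * ∫ V, H V ∂ν| =
      |∫ V, F V ∂ν - (∫ V, F V * h' V ∂ν) / ∫ V, h' V ∂ν| * ∫ V, h' V ∂ν := by
    rw [← abs_of_pos hpos, ← abs_mul, abs_of_pos hpos, sub_mul, div_mul_cancel₀ _ hpos.ne', e1, e2,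
      abs_sub_comm]
    congr 1
    ring
  rw [h5, mul_comm]
  have h6 : ∫ V, h' V ∂ν ≤ 2 * M + 1 := by
    have h7 : ∫ V, H V ∂ν ≤ M := by
      have := integral_mono (hHb.integrable ν) (integrable_const M) fun V => (abs_le.1 (hM V)).2
      simpa using this
    rw [e1]; linarith
  exact mul_le_mul h6 h4 (abs_nonneg _) (by
    have := hpos.le
    linarith)

end

end Pool.Agent.Q234.SC
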