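import Pool.Agent.Q234.SC.Tor2

/-!
# Existence of Gibbs states on the infinite lattice
-/

namespace Pool.Agent.Q234.SC

open MeasureTheory Quaternion Function Pool.Agent.H556R4.Dob Pool.Agent.H556R4.SU2 Filter
open scoped Topology ENNReal

set_option linter.unusedSectionVars false
set_option autoImplicit false

section

variable {d : ℕ} [MeasurableSpace S3] [BorelSpace S3]
  (μ : Measure S3) [IsProbabilityMeasure μ] [μ.IsMulLeftInvariant] [μ.IsMulRightInvariant]
  [μ.IsInvInvariant]

/-- infinite volume Gibbs states: the single site equations hold everywhere -/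
structure Gb (β : ℝ) (ν : Measure (Lk ℤ d → S3)) : Prop where
  prob : IsProbabilityMeasure ν
  inv : ∀ x : Lk ℤ d, ∀ f : (Lk ℤ d → S3) → ℝ, BM f → ∫ V, hb μ (fl β) x f V ∂ν = ∫ V, f V ∂ν

lemma Gb.gib {β : ℝ} {ν : Measure (Lk ℤ d → S3)} (h : Gb μ β ν) (n : ℕ) : Gib μ β n ν :=
  ⟨h.prob, fun x _ f hf _ => h.inv x f hf⟩

/-- the density of the conditional law -/
noncomputable def rho (β : ℝ) (x : Lk ℤ d) (p : (Lk ℤ d → S3) × S3) : ℝ :=
  Real.exp (inner ℝ (fl β x p.1) (p.2 : ℍ[ℝ])) / Zs μ (fl β x p.1)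

lemma rho_pos (β : ℝ) (x : Lk ℤ d) (p : (Lk ℤ d → S3) × S3) : 0 < rho μ β x p :=
  div_pos (Real.exp_pos _) (Zs_pos μ _)

lemma cont_joint (β : ℝ) (x : Lk ℤ d) : Continuous fun p : (Lk ℤ d → S3) × S3 =>
    Real.exp (inner ℝ (fl β x p.1) (p.2 : ℍ[ℝ])) :=
  Real.continuous_exp.comp (((cont_fl β x).comp continuous_fst).inner
    (continuous_subtype_val.comp continuous_snd))

/-- continuity of integrals with respect to a parameter -/
lemma cont_int {F : (Lk ℤ d → S3) × S3 → ℝ} (hF : Continuous F) :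
    Continuous fun V : Lk ℤ d → S3 => ∫ g, F (V, g) ∂μ := by
  obtain ⟨C, hC⟩ := isCompact_univ.exists_bound_of_continuousOn hF.continuousOn
  refine continuous_of_dominated (bound := fun _ => C) (fun V => ?_) (fun V => ?_)
    (integrable_const C) (Eventually.of_forall fun g => ?_)
  · exact (hF.comp (continuous_const.prodMk continuous_id)).aestronglyMeasurable
  · exact Eventually.of_forall fun g => hC _ (Set.mem_univ _)
  · exact hF.comp (continuous_id.prodMk continuous_const)

lemma cont_Zs (β : ℝ) (x : Lk ℤ d) : Continuous fun V : Lk ℤ d → S3 => Zs μ (fl β x V) :=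
  cont_int μ (cont_joint β x)

lemma cont_upd (x : Lk ℤ d) : Continuous fun p : (Lk ℤ d → S3) × S3 => update p.1 x p.2 :=
  continuous_fst.update x continuous_snd

lemma cont_hb (β : ℝ) (x : Lk ℤ d) {f : (Lk ℤ d → S3) → ℝ} (hf : Continuous f) :
    Continuous (hb μ (fl β) x f) := by
  have h1 : Continuous fun V : Lk ℤ d → S3 => ∫ g, f (update V x g) *
      Real.exp (inner ℝ (fl β x V) (g : ℍ[ℝ])) ∂μ :=
    cont_int μ (F := fun p => f (update p.1 x p.2) * Real.exp (inner ℝ (fl β x p.1) (p.2 : ℍ[ℝ])))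
      ((hf.comp (cont_upd x)).mul (cont_joint β x))
  exact h1.div (cont_Zs μ β x) fun V => (Zs_pos μ _).ne'

lemma cont_rho (β : ℝ) (x : Lk ℤ d) : Continuous (rho μ β x) :=
  (cont_joint β x).div ((cont_Zs μ β x).comp continuous_fst) fun _ => (Zs_pos μ _).ne'

/-- the law after one step of the heat bath -/
noncomputable def step (β : ℝ) (x : Lk ℤ d) (ν : Measure (Lk ℤ d → S3)) :
    Measure (Lk ℤ d → S3) :=
  ((ν.prod μ).withDensity fun p => ENNReal.ofReal (rho μ β x p)).map fun p => update p.1 x p.2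

lemma step_int (β : ℝ) (x : Lk ℤ d) (ν : Measure (Lk ℤ d → S3)) [IsProbabilityMeasure ν]
    {f : (Lk ℤ d → S3) → ℝ} (hf : BM f) :
    ∫ V, f V ∂(step μ β x ν) = ∫ V, hb μ (fl β) x f V ∂ν := by
  unfold step
  have hρ : BM (rho μ β x) := BM.of_cont (cont_rho μ β x)
  rw [integral_map (cont_upd x).measurable.aemeasurable hf.meas.aestronglyMeasurable,
    integral_withDensity_eq_integral_toReal_smul
      (hρ.meas.ennreal_ofReal) (Eventually.of_forall fun _ => ENNReal.ofReal_lt_top)]
  have e1 : ∀ p : (Lk ℤ d → S3) × S3, (ENNReal.ofReal (rho μ β x p)).toReal •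
      f (update p.1 x p.2) = f (update p.1 x p.2) * rho μ β x p := by
    intro p
    rw [ENNReal.toReal_ofReal (rho_pos μ β x p).le, smul_eq_mul, mul_comm]
  simp only [e1]
  have hb1 : BM fun p : (Lk ℤ d → S3) × S3 => f (update p.1 x p.2) * rho μ β x p :=
    (hf.comp (cont_upd x).measurable).mul hρ
  rw [integral_prod _ (hb1.integrable _)]
  refine integral_congr_ae (Eventually.of_forall fun V => ?_)
  simp only [rho, hb, Eh]
  rw [← integral_div]
  refine integral_congr_ae (Eventually.of_forall fun g => ?_)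
  simp only
  ring

lemma step_prob (β : ℝ) (x : Lk ℤ d) (ν : Measure (Lk ℤ d → S3)) [IsProbabilityMeasure ν] :
    IsProbabilityMeasure (step μ β x ν) := by
  have hρ : BM (rho μ β x) := BM.of_cont (cont_rho μ β x)
  have h1 : IsFiniteMeasure ((ν.prod μ).withDensity fun p => ENNReal.ofReal (rho μ β x p)) := by
    refine isFiniteMeasure_withDensity_ofReal ?_
    exact (hρ.integrable _).2
  have h2 : IsFiniteMeasure (step μ β x ν) := by
    unfold step
    infer_instance
  have h3 := step_int μ β x ν (f := fun _ => 1) ⟨measurable_const, 1, fun _ => by simp⟩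
  have h4 : ∀ V, hb μ (fl β) x (fun _ => 1) V = 1 := fun V => Eh_const μ 1 _
  simp only [h4, integral_const, smul_eq_mul, mul_one, probReal_univ] at h3
  refine ⟨?_⟩
  rw [Measure.real] at h3
  have h5 := ENNReal.ofReal_toReal (measure_ne_top (step μ β x ν) Set.univ)
  rw [h3, ENNReal.ofReal_one] at h5
  exact h5.symm

/-- truncation of configurations -/
noncomputable def trunc (n : ℕ) (V : Lk ℤ d → S3) : Lk ℤ d → S3 :=
  fun e => if e ∈ lks d n then V e else 1

lemma mem_lks_ev (e : Lk ℤ d) : ∀ᶠ n in atTop, e ∈ lks d n := by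
  refine eventually_atTop.2 ⟨∑ i, (e.1 i).natAbs, fun n hn => mem_lks.2 fun i => ?_⟩
  have h1 : (e.1 i).natAbs ≤ ∑ i, (e.1 i).natAbs :=
    Finset.single_le_sum (f := fun i => (e.1 i).natAbs) (fun _ _ => Nat.zero_le _)
      (Finset.mem_univ i)
  omega

lemma trunc_tendsto (V : Lk ℤ d → S3) : Tendsto (fun n => trunc n V) atTop (𝓝 V) := by
  rw [tendsto_pi_nhds]
  intro e
  refine tendsto_const_nhds.congr' ?_
  filter_upwards [mem_lks_ev e] with n hn
  unfold trunc
  rw [if_pos hn]

lemma cont_trunc (n : ℕ) : Continuous (trunc (d := d) n) := by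
  refine continuous_pi fun e => ?_
  unfold trunc
  split_ifs
  · exact continuous_apply e
  · exact continuous_const

/-- two probability measures which agree on the continuous local functions are equal -/
lemma ext_local {ν ν' : Measure (Lk ℤ d → S3)} [IsProbabilityMeasure ν] [IsProbabilityMeasure ν']
    (h : ∀ (n : ℕ) (f : (Lk ℤ d → S3) → ℝ), Continuous f → DepOn (lks d n) f →
      ∫ V, f V ∂ν = ∫ V, f V ∂ν') : ν = ν' := by
  refine ext_of_forall_integral_eq_of_IsFiniteMeasure fun f => ?_
  have h1 : ∀ ν : Measure (Lk ℤ d → S3), IsProbabilityMeasure ν →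
      Tendsto (fun n => ∫ V, f (trunc n V) ∂ν) atTop (𝓝 (∫ V, f V ∂ν)) := by
    intro ν _
    refine tendsto_integral_of_dominated_convergence (fun _ => ‖f‖) (fun n => ?_)
      (integrable_const _) (fun n => ?_) ?_
    · exact (f.continuous.comp (cont_trunc n)).aestronglyMeasurable
    · exact Eventually.of_forall fun V => f.norm_coe_le_norm _
    · exact Eventually.of_forall fun V => (f.continuous.tendsto V).comp (trunc_tendsto V)
  have h2 := h1 ν inferInstance
  have h3 := h1 ν' inferInstance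
  have h4 : ∀ n, ∫ V, f (trunc n V) ∂ν = ∫ V, f (trunc n V) ∂ν' := fun n => by
    refine h n _ (f.continuous.comp (cont_trunc n)) fun V V' hVV => ?_
    have : trunc n V = trunc n V' := by
      funext e
      unfold trunc
      split_ifs with he
      · exact hVV e he
      · rfl
    simp only [this]
  simp only [h4] at h2
  exact tendsto_nhds_unique h2 h3

/-- existence of infinite volume Gibbs states -/
theorem exists_gb (β : ℝ) : ∃ ν : Measure (Lk ℤ d → S3), Gb μ β ν := by
  set P : ℕ → ProbabilityMeasure (Lk ℤ d → S3) := fun j => ⟨nuT μ d (j + 1) β, nuT_prob μ β⟩ with hP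
  obtain ⟨ν, φ, hφ, hlim⟩ := CompactSpace.tendsto_subseq P
  refine ⟨ν, ⟨inferInstance, fun x f hf => ?_⟩⟩
  have hlim' : ∀ f : (Lk ℤ d → S3) → ℝ, Continuous f →
      Tendsto (fun j => ∫ V, f V ∂(nuT μ d (φ j + 1) β)) atTop (𝓝 (∫ V, f V ∂(ν : Measure _))) := by
    intro f hf
    exact (ProbabilityMeasure.tendsto_iff_forall_integral_tendsto.1 hlim)
      (BoundedContinuousFunction.mkOfCompact ⟨f, hf⟩)
  have hst := step_prob μ β x (ν : Measure (Lk ℤ d → S3))
  have key : step μ β x (ν : Measure (Lk ℤ d → S3)) = ν := by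
    refine ext_local fun n f hf hfd => ?_
    have hfb : BM f := BM.of_cont hf
    rw [step_int μ β x _ hfb]
    have h1 := hlim' f hf
    have h2 := hlim' _ (cont_hb μ β x hf)
    refine tendsto_nhds_unique (h2.congr' ?_) h1
    obtain ⟨N, hN⟩ := eventually_atTop.1 (mem_lks_ev x)
    filter_upwards [hφ.tendsto_atTop.eventually_ge_atTop (2 * (N + n + 1) + 1)] with j hj
    have h3 := nuT_gib (d := d) (l := φ j + 1) μ β (n := N + n) (by omega)
    exact h3.inv x (hN _ (by omega)) f hfb (hfd.mono (lks_mono (by omega)))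
  have h1 := step_int μ β x (ν : Measure (Lk ℤ d → S3)) hf
  rw [key] at h1
  exact h1.symm

end

end Pool.Agent.Q234.SC
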