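import Pool.Agent.Q234.SC.Rp2
import Pool.Agent.Q234.SC.Exi

/-!
# The infinite volume theory at strong coupling
-/

namespace Pool.Agent.Q234.SC

open MeasureTheory Quaternion Function Pool.Agent.H556R4.Dob Pool.Agent.H556R4.SU2 Filter
open scoped Topology ENNReal

set_option linter.unusedSectionVars false
set_option autoImplicit false

section

variable {R : Type} [AddCommGroup R] [One R] {d : ℕ}

/-- shift of the configurations -/
def sh (a : Fin d → R) (V : Lk R d → S3) : Lk R d → S3 := fun e => V (e.1 + a, e.2)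

lemma sh_sh (a b : Fin d → R) (V : Lk R d → S3) : sh a (sh b V) = sh (a + b) V := by
  funext e; unfold sh; simp only [add_assoc]

lemma sh_zero (V : Lk R d → S3) : sh 0 V = V := by
  funext e; unfold sh; simp

lemma sh_gt (a : Fin d → R) (γ : (Fin d → R) → S3) (V : Lk R d → S3) :
    sh a (gt γ V) = gt (fun x => γ (x + a)) (sh a V) := by
  funext e; unfold sh gt; simp only [add_right_comm e.1 a]

lemma refl_gt (i : Fin d) (γ : (Fin d → R) → S3) (V : Lk R d → S3) :
    refl i (gt γ V) = gt (fun x => γ (flip i x)) (refl i V) := by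
  funext e
  unfold refl gt rl
  by_cases h : e.2 = i
  · simp only [h, if_true, flip_add, sub_add_cancel, mul_inv_rev, inv_inv, mul_assoc]
  · simp only [h, if_false, flip_add_ne h]

lemma refl_sh (i : Fin d) (c : R) (V : Lk R d → S3) :
    sh (Pi.single i c) (refl i V) = refl i (sh (-Pi.single i c) V) := by
  have hf : ∀ x : Fin d → R, flip i (x + Pi.single i c) = flip i x + -Pi.single i c := by
    intro x
    funext k
    unfold flip
    by_cases hk : k = i
    · subst hk; simp; abel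
    · simp [update_of_ne hk, Pi.single_eq_of_ne hk]
  funext e
  unfold sh refl rl
  by_cases h : e.2 = i
  · simp only [h, if_true, hf]
    congr 3
    abel
  · simp only [h, if_false, hf]

lemma refl_refl (i : Fin d) (V : Lk R d → S3) : refl i (refl i V) = V := by
  funext e
  unfold refl
  by_cases h : e.2 = i
  · have h2 : (rl i e).2 = i := by unfold rl; exact h
    rw [if_pos h, if_pos h2, rl_rl, inv_inv]
  · have h2 : ¬ (rl i e).2 = i := by unfold rl; exact h
    rw [if_neg h, if_neg h2, rl_rl]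

lemma plq_sh (a : Fin d → R) (V : Lk R d → S3) (x : Fin d → R) (j k : Fin d) :
    plq (sh a V) x j k = plq V (x + a) j k := by
  unfold plq sh
  simp only [add_right_comm x _ a]

end

section

variable {d : ℕ}

/-- gauge invariant Lipschitz functions of finitely many links -/
structure Og (B : Finset (Lk ℤ d)) (F : (Lk ℤ d → S3) → ℝ) : Prop where
  inv : ∀ γ V, F (gt γ V) = F V
  lip : ∃ L, Lip B L F

lemma Lip.mono {B B' : Finset (Lk ℤ d)} {L : ℝ} {F : (Lk ℤ d → S3) → ℝ} (hF : Lip B L F)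
    (h : B ⊆ B') : Lip B' L F :=
  ⟨hF.nn, fun V V' => (hF.lip V V').trans (mul_le_mul_of_nonneg_left
    (Finset.sum_le_sum_of_subset_of_nonneg h fun _ _ _ => norm_nonneg _) hF.nn)⟩

lemma exists_cube1 (e : Lk ℤ d) : ∃ r, e ∈ lks d r := by
  refine ⟨∑ i, (e.1 i).natAbs, mem_lks.2 fun i => ?_⟩
  have h1 : (e.1 i).natAbs ≤ ∑ i, (e.1 i).natAbs :=
    Finset.single_le_sum (f := fun i => (e.1 i).natAbs) (fun _ _ => Nat.zero_le _)
      (Finset.mem_univ i)
  omega

lemma exists_cube (B : Finset (Lk ℤ d)) : ∃ r, B ⊆ lks d r := by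
  induction B using Finset.induction_on with
  | empty => exact ⟨0, Finset.empty_subset _⟩
  | insert e B he ih =>
    obtain ⟨r, hr⟩ := ih
    obtain ⟨s, hs⟩ := exists_cube1 e
    refine ⟨r + s, fun y hy => ?_⟩
    rcases Finset.mem_insert.1 hy with rfl | hy
    · exact lks_mono (by omega) hs
    · exact lks_mono (by omega) (hr hy)

/-- the shifted links -/
def shB (a : Fin d → ℤ) (B : Finset (Lk ℤ d)) : Finset (Lk ℤ d) :=
  B.image fun e => (e.1 + a, e.2)

lemma Lip.sh {B : Finset (Lk ℤ d)} {L : ℝ} {F : (Lk ℤ d → S3) → ℝ} (hF : Lip B L F)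
    (a : Fin d → ℤ) : Lip (shB a B) L fun V => F (sh a V) :=
  ⟨hF.nn, fun V V' => by
    refine (hF.lip _ _).trans (le_of_eq ?_)
    unfold shB
    rw [Finset.sum_image]
    · rfl
    · intro x _ y _ hxy
      simp only [Prod.mk.injEq, add_left_inj] at hxy
      exact Prod.ext hxy.1 hxy.2⟩

lemma Lip.refl {B : Finset (Lk ℤ d)} {L : ℝ} {F : (Lk ℤ d → S3) → ℝ} (hF : Lip B L F)
    (i : Fin d) : Lip (B.image (rl i)) L fun V => F (refl i V) :=
  ⟨hF.nn, fun V V' => by
    refine (hF.lip _ _).trans (le_of_eq ?_)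
    rw [Finset.sum_image]
    · congr 1
      refine Finset.sum_congr rfl fun e _ => ?_
      unfold SC.refl
      split_ifs
      · rw [norm_inv_sub]
      · rfl
    · intro x _ y _ hxy
      have := congrArg (rl i) hxy
      rwa [rl_rl, rl_rl] at this⟩

lemma Lip.mul {B B' : Finset (Lk ℤ d)} {L L' : ℝ} {F F' : (Lk ℤ d → S3) → ℝ} (hF : Lip B L F)
    (hF' : Lip B' L' F') : ∃ L'', Lip (B ∪ B') L'' fun V => F V * F' V := by
  obtain ⟨M, hM0, hM⟩ := hF.bdd
  obtain ⟨M', hM0', hM'⟩ := hF'.bdd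
  have h1 := hF.mono (Finset.subset_union_left : B ⊆ B ∪ B')
  have h2 := hF'.mono (Finset.subset_union_right : B' ⊆ B ∪ B')
  refine ⟨L * M' + M * L', ⟨by have := hF.nn; have := hF'.nn; positivity, fun V V' => ?_⟩⟩
  have e : F V * F' V - F V' * F' V' = (F V - F V') * F' V + F V' * (F' V - F' V') := by ring
  rw [e, add_mul]
  refine (abs_add_le _ _).trans (add_le_add ?_ ?_)
  · rw [abs_mul]
    calc _ ≤ (L * ∑ e ∈ B ∪ B', ‖(V e : ℍ[ℝ]) - V' e‖) * M' :=
          mul_le_mul (h1.lip V V') (hM' V) (abs_nonneg _) (mul_nonneg hF.nn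
            (Finset.sum_nonneg fun _ _ => norm_nonneg _))
      _ = _ := by ring
  · rw [abs_mul]
    calc _ ≤ M * (L' * ∑ e ∈ B ∪ B', ‖(V e : ℍ[ℝ]) - V' e‖) :=
          mul_le_mul (hM V') (h2.lip V V') (abs_nonneg _) hM0
      _ = _ := by ring

lemma Lip.lin {B B' : Finset (Lk ℤ d)} {L L' : ℝ} {F F' : (Lk ℤ d → S3) → ℝ} (hF : Lip B L F)
    (hF' : Lip B' L' F') (a b c : ℝ) : ∃ L'', Lip (B ∪ B') L'' fun V => a * F V + b * F' V + c := by
  have h1 := hF.mono (Finset.subset_union_left : B ⊆ B ∪ B')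
  have h2 := hF'.mono (Finset.subset_union_right : B' ⊆ B ∪ B')
  refine ⟨|a| * L + |b| * L', ⟨by have := hF.nn; have := hF'.nn; positivity, fun V V' => ?_⟩⟩
  have e : a * F V + b * F' V + c - (a * F V' + b * F' V' + c) =
      a * (F V - F V') + b * (F' V - F' V') := by ring
  rw [e, add_mul]
  refine (abs_add_le _ _).trans (add_le_add ?_ ?_)
  · rw [abs_mul, mul_assoc]
    exact mul_le_mul_of_nonneg_left (h1.lip V V') (abs_nonneg _)
  · rw [abs_mul, mul_assoc]
    exact mul_le_mul_of_nonneg_left (h2.lip V V') (abs_nonneg _)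

lemma Og.sh {B : Finset (Lk ℤ d)} {F : (Lk ℤ d → S3) → ℝ} (hF : Og B F) (a : Fin d → ℤ) :
    Og (shB a B) fun V => F (sh a V) := by
  obtain ⟨L, hL⟩ := hF.lip
  exact ⟨fun γ V => by simp only [sh_gt, hF.inv], L, hL.sh a⟩

lemma Og.refl {B : Finset (Lk ℤ d)} {F : (Lk ℤ d → S3) → ℝ} (hF : Og B F) (i : Fin d) :
    Og (B.image (rl i)) fun V => F (refl i V) := by
  obtain ⟨L, hL⟩ := hF.lip
  exact ⟨fun γ V => by simp only [refl_gt, hF.inv], L, hL.refl i⟩

lemma Og.mul {B B' : Finset (Lk ℤ d)} {F F' : (Lk ℤ d → S3) → ℝ} (hF : Og B F) (hF' : Og B' F') :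
    Og (B ∪ B') fun V => F V * F' V := by
  obtain ⟨L, hL⟩ := hF.lip
  obtain ⟨L', hL'⟩ := hF'.lip
  exact ⟨fun γ V => by simp only [hF.inv, hF'.inv], hL.mul hL'⟩

lemma Og.lin {B B' : Finset (Lk ℤ d)} {F F' : (Lk ℤ d → S3) → ℝ} (hF : Og B F) (hF' : Og B' F')
    (a b c : ℝ) : Og (B ∪ B') fun V => a * F V + b * F' V + c := by
  obtain ⟨L, hL⟩ := hF.lip
  obtain ⟨L', hL'⟩ := hF'.lip
  exact ⟨fun γ V => by simp only [hF.inv, hF'.inv], hL.lin hL' a b c⟩

end

section

variable {d : ℕ} [MeasurableSpace S3] [BorelSpace S3]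
  (μ : Measure S3) [IsProbabilityMeasure μ] [μ.IsMulLeftInvariant] [μ.IsMulRightInvariant]
  [μ.IsInvInvariant]

lemma Og.bm {B : Finset (Lk ℤ d)} {F : (Lk ℤ d → S3) → ℝ} (hF : Og B F) : BM F := by
  obtain ⟨L, hL⟩ := hF.lip
  exact hL.bm

/-- the rate for the boundary effects -/
lemma exists_rate {β : ℝ} (hβ : (6 * (d : ℝ) - 10) * |β| < Real.sqrt 3) :
    ∃ m' : ℝ, 0 < m' ∧ kc * (2 * |β|) * ((6 * ((d : ℝ) - 2) + 2) * Real.exp m') ≤ 1 := by
  set q := kc * (2 * |β|) * (6 * ((d : ℝ) - 2) + 2) with hq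
  have h3 : Real.sqrt 3 * Real.sqrt 3 = 3 := Real.mul_self_sqrt (by norm_num)
  have hs : 0 < Real.sqrt 3 := Real.sqrt_pos.2 (by norm_num)
  have hq1 : q < 1 := by
    have e : q = Real.sqrt 3 / 3 * ((6 * (d : ℝ) - 10) * |β|) := by
      rw [hq]; unfold kc; ring
    rw [e]
    have := mul_lt_mul_of_pos_left hβ (by positivity : 0 < Real.sqrt 3 / 3)
    have e2 : Real.sqrt 3 / 3 * Real.sqrt 3 = 1 := by rw [div_mul_eq_mul_div, h3]; norm_num
    linarith
  set Q := max q (1 / 2) with hQ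
  have hQ0 : 0 < Q := lt_of_lt_of_le (by norm_num) (le_max_right _ _)
  have hQ1 : Q < 1 := max_lt hq1 (by norm_num)
  refine ⟨-Real.log Q, neg_pos.2 (Real.log_neg hQ0 hQ1), ?_⟩
  rw [Real.exp_neg, Real.exp_log hQ0]
  have e : kc * (2 * |β|) * ((6 * ((d : ℝ) - 2) + 2) * Q⁻¹) = q / Q := by rw [hq]; ring
  rw [e, div_le_one hQ0]
  exact le_max_left _ _

/-- the states on the periodic lattices converge -/
theorem lim_torus {β : ℝ} (hd : 2 ≤ d) (hβ : (6 * (d : ℝ) - 10) * |β| < Real.sqrt 3)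
    {ν : Measure (Lk ℤ d → S3)} (hν : Gb μ β ν) {B : Finset (Lk ℤ d)} {F : (Lk ℤ d → S3) → ℝ}
    (hF : Og B F) :
    Tendsto (fun l : ℕ => ∫ V, F V ∂(nuT μ d (l + 1) β)) atTop (𝓝 (∫ V, F V ∂ν)) := by
  obtain ⟨m', hm', h2⟩ := exists_rate hβ
  obtain ⟨L, hL⟩ := hF.lip
  obtain ⟨r, hr⟩ := exists_cube B
  rw [tendsto_iff_dist_tendsto_zero]
  have hb := (((bb_tendsto (d := d) hm' r).comp (tendsto_add_atTop_nat 1)).const_mul
    (2 * L)).const_mul ((lks d r).card : ℝ)
  simp only [mul_zero] at hb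
  have hn : Tendsto (fun l : ℕ => l / 2 - 3) atTop atTop := by
    refine tendsto_atTop_atTop.2 fun b => ⟨2 * (b + 3), fun l hl => ?_⟩
    omega
  have hb2 := hb.comp hn
  refine squeeze_zero' (Eventually.of_forall fun _ => dist_nonneg) ?_ hb2
  filter_upwards [eventually_ge_atTop (2 * (r + 4))] with l hl
  rw [Real.dist_eq]
  have o : Fin d := ⟨0, by omega⟩
  exact uniq o μ hm' h2 (n := l / 2 - 3) (r := r) (by omega)
    (nuT_gib (l := l + 1) μ β (by omega)) (hν.gib μ _) (hL.mono hr) hF.inv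

/-- **Exponential clustering.** -/
theorem clusG {β m : ℝ} (hd : 2 ≤ d) (hβ : (6 * (d : ℝ) - 10) * |β| < Real.sqrt 3) (hm : 0 ≤ m)
    (h1 : |β| * (6 * ((d : ℝ) - 2) + 2 * Real.cosh m) ≤ Real.sqrt 3)
    {ν : Measure (Lk ℤ d → S3)} (hν : Gb μ β ν) (i : Fin d) {B B' : Finset (Lk ℤ d)}
    {F H : (Lk ℤ d → S3) → ℝ} (hF : Og B F) (hH : Og B' H) :
    ∃ K : ℝ, ∀ t : ℕ, |∫ V, F V * H (sh (Pi.single i (t : ℤ)) V) ∂ν -
      (∫ V, F V ∂ν) * ∫ V, H (sh (Pi.single i (t : ℤ)) V) ∂ν| ≤ K * Real.exp (-(m * t)) := by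
  obtain ⟨m', hm', h2⟩ := exists_rate hβ
  obtain ⟨L, hL⟩ := hF.lip
  obtain ⟨L', hL'⟩ := hH.lip
  obtain ⟨r, hr⟩ := exists_cube B
  obtain ⟨r', hr'⟩ := exists_cube B'
  obtain ⟨M, hM0, hM⟩ := hL'.bdd
  have h1' : kc * (2 * |β|) * (6 * ((d : ℝ) - 2) + 2 * Real.cosh m) ≤ 1 := by
    have h3 : Real.sqrt 3 * Real.sqrt 3 = 3 := Real.mul_self_sqrt (by norm_num)
    have hs : 0 < Real.sqrt 3 := Real.sqrt_pos.2 (by norm_num)
    have e : kc * (2 * |β|) * (6 * ((d : ℝ) - 2) + 2 * Real.cosh m) =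
        Real.sqrt 3 / 3 * (|β| * (6 * ((d : ℝ) - 2) + 2 * Real.cosh m)) := by
      unfold kc; ring
    rw [e]
    have := mul_le_mul_of_nonneg_left h1 (by positivity : 0 ≤ Real.sqrt 3 / 3)
    have e2 : Real.sqrt 3 / 3 * Real.sqrt 3 = 1 := by rw [div_mul_eq_mul_div, h3]; norm_num
    linarith
  refine ⟨(2 * M + 1) * ((lks d r).card * (2 * L * Real.exp (m * (r + r')))), fun t => ?_⟩
  have hsub : shB (Pi.single i (t : ℤ)) B' ⊆ lks d (r' + t) := by
    intro e he
    unfold shB at he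
    obtain ⟨y, hy, rfl⟩ := Finset.mem_image.1 he
    have h3 := mem_lks.1 (hr' hy)
    refine mem_lks.2 fun k => ?_
    have h4 := h3 k
    simp only [Pi.add_apply, Pi.single_apply]
    push_cast
    split_ifs <;> omega
  have hbt : ∀ y ∈ shB (Pi.single i (t : ℤ)) B', (t : ℤ) - r' ≤ y.1 i := by
    intro e he
    unfold shB at he
    obtain ⟨y, hy, rfl⟩ := Finset.mem_image.1 he
    have h3 := mem_lks.1 (hr' hy) i
    simp only [Pi.add_apply, Pi.single_eq_same]
    omega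
  have key : ∀ n : ℕ, |∫ V, F V * H (sh (Pi.single i (t : ℤ)) V) ∂ν -
      (∫ V, F V ∂ν) * ∫ V, H (sh (Pi.single i (t : ℤ)) V) ∂ν| ≤
      (2 * M + 1) * ((lks d r).card * (2 * L * (Real.exp (m * (r - ((t : ℤ) - r' : ℤ))) +
        bb d m' r (n + (r + r' + t) + 1)))) := by
    intro n
    exact clus i μ hm' h1' h2 hd hm (n := n + (r + r' + t)) (r := r) (by omega) (hν.gib μ _)
      (hL.mono hr) hF.inv (hsub.trans (lks_mono (by omega))) hbt (hL'.sh _) fun V => hM _
  have hlim : Tendsto (fun n : ℕ => (2 * M + 1) * ((lks d r).card * (2 * L * (Real.exp (m *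
      (r - ((t : ℤ) - r' : ℤ))) + bb d m' r (n + (r + r' + t) + 1))))) atTop
      (𝓝 ((2 * M + 1) * ((lks d r).card * (2 * L * (Real.exp (m * (r - ((t : ℤ) - r' : ℤ))) +
        0))))) := by
    refine Tendsto.const_mul _ (Tendsto.const_mul _ (Tendsto.const_mul _ (Tendsto.const_add _ ?_)))
    have := (bb_tendsto (d := d) hm' r).comp (tendsto_add_atTop_nat ((r + r' + t) + 1))
    exact this
  have hfin := ge_of_tendsto' hlim key
  refine hfin.trans (le_of_eq ?_)
  rw [add_zero, mul_assoc (2 * M + 1), mul_assoc ((lks d r).card : ℝ), mul_assoc (2 * L),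
    ← Real.exp_add]
  congr 4
  push_cast
  ring

lemma lin9 {X : Type} [MeasurableSpace X] (ν : Measure X) [IsProbabilityMeasure ν]
    {f1 f2 f3 f4 f5 f6 f7 f8 : X → ℝ} {b : ℝ} (h1 : Integrable f1 ν) (h2 : Integrable f2 ν)
    (h3 : Integrable f3 ν) (h4 : Integrable f4 ν) (h5 : Integrable f5 ν) (h6 : Integrable f6 ν)
    (h7 : Integrable f7 ν) (h8 : Integrable f8 ν) :
    ∫ V, (f1 V + f2 V + f3 V + f4 V + f5 V + f6 V + f7 V + f8 V + b) ∂ν =
      ∫ V, f1 V ∂ν + ∫ V, f2 V ∂ν + ∫ V, f3 V ∂ν + ∫ V, f4 V ∂ν + ∫ V, f5 V ∂ν + ∫ V, f6 V ∂ν +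
        ∫ V, f7 V ∂ν + ∫ V, f8 V ∂ν + b := by
  have a2 : Integrable (fun V => f1 V + f2 V) ν := h1.add h2
  have a3 : Integrable (fun V => f1 V + f2 V + f3 V) ν := a2.add h3
  have a4 : Integrable (fun V => f1 V + f2 V + f3 V + f4 V) ν := a3.add h4
  have a5 : Integrable (fun V => f1 V + f2 V + f3 V + f4 V + f5 V) ν := a4.add h5
  have a6 : Integrable (fun V => f1 V + f2 V + f3 V + f4 V + f5 V + f6 V) ν := a5.add h6
  have a7 : Integrable (fun V => f1 V + f2 V + f3 V + f4 V + f5 V + f6 V + f7 V) ν := a6.add h7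
  have a8 : Integrable (fun V => f1 V + f2 V + f3 V + f4 V + f5 V + f6 V + f7 V + f8 V) ν :=
    a7.add h8
  rw [integral_add a8 (integrable_const b), integral_add a7 h8, integral_add a6 h7,
    integral_add a5 h6, integral_add a4 h5, integral_add a3 h4, integral_add a2 h3,
    integral_add h1 h2, integral_const, probReal_univ, one_smul]

lemma act_sh {l : ℕ} [NeZero l] (a : Fin d → ZMod l) (U : Lk (ZMod l) d → S3) :
    act (sh a U) = act U := by
  unfold act
  simp only [plq_sh]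
  exact Equiv.sum_comp (Equiv.addRight a) fun x => ∑ i : Fin d, ∑ j : Fin d,
    if i < j then 2 * (plq U x i j : ℍ[ℝ]).re else 0

lemma per_sh {l : ℕ} (a : Fin d → ℤ) (U : Lk (ZMod l) d → S3) :
    sh a (per U) = per (sh (fun i => (a i : ZMod l)) U) := by
  funext e
  unfold sh per
  simp only
  congr 2
  funext i
  simp

lemma mp_sh {l : ℕ} [NeZero l] (a : Fin d → ZMod l) : MeasurePreserving
    (sh a : (Lk (ZMod l) d → S3) → Lk (ZMod l) d → S3) (Pm μ : Measure (Lk (ZMod l) d → S3))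
    (Pm μ : Measure (Lk (ZMod l) d → S3)) :=
  mp_perm μ ((Equiv.addRight a).prodCongr (Equiv.refl (Fin d)))

/-- the states on the periodic lattices are translation invariant -/
lemma nuT_sh {l : ℕ} [NeZero l] (β : ℝ) (a : Fin d → ℤ) {F : (Lk ℤ d → S3) → ℝ} (hF : BM F) :
    ∫ V, F (sh a V) ∂(nuT μ d l β) = ∫ V, F V ∂(nuT μ d l β) := by
  have hc : Continuous (sh a : (Lk ℤ d → S3) → Lk ℤ d → S3) :=
    continuous_pi fun e => continuous_apply _
  rw [nuT_int μ β (hF.comp hc.measurable).meas, nuT_int μ β hF.meas]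
  congr 1
  have h := mp_sh μ (d := d) (fun i => (a i : ZMod l))
  have hm : BM fun U : Lk (ZMod l) d → S3 => F (per U) * Real.exp (β * act U) :=
    (hF.comp cont_per.measurable).mul (bm_w' β)
  have h2 := integral_map (μ := (Pm μ : Measure (Lk (ZMod l) d → S3))) h.measurable.aemeasurable
    (f := fun U : Lk (ZMod l) d → S3 => F (per U) * Real.exp (β * act U))
    hm.meas.aestronglyMeasurable
  rw [h.map_eq] at h2
  rw [h2]
  refine integral_congr_ae (Eventually.of_forall fun U => ?_)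
  simp only
  rw [per_sh, act_sh]

/-- the states on the periodic lattices of even side are reflection invariant -/
lemma nuT_refl {l h : ℕ} [NeZero l] (hl : l = 2 * h) (i : Fin d) (β : ℝ)
    {F : (Lk ℤ d → S3) → ℝ} (hF : BM F) :
    ∫ V, F (refl i V) ∂(nuT μ d l β) = ∫ V, F V ∂(nuT μ d l β) := by
  rw [nuT_int μ β (hF.comp (cont_refl i).measurable).meas, nuT_int μ β hF.meas]
  congr 1
  have h1 := mp_refl (d := d) (l := l) i μ
  have hm : BM fun U : Lk (ZMod l) d → S3 => F (per U) * Real.exp (β * act U) :=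
    (hF.comp cont_per.measurable).mul (bm_w' β)
  have h2 := integral_map (μ := (Pm μ : Measure (Lk (ZMod l) d → S3))) h1.measurable.aemeasurable
    (f := fun U : Lk (ZMod l) d → S3 => F (per U) * Real.exp (β * act U))
    hm.meas.aestronglyMeasurable
  rw [h1.map_eq] at h2
  rw [h2]
  refine integral_congr_ae (Eventually.of_forall fun U => ?_)
  simp only
  have e1 : act (refl i U) = act U := by
    rw [act_split i hl (refl i U), act_split i hl U, refl_refl]
    have e2 : A0 i h (refl i U) = A0 i h U := A0_dep i hl _ _ fun e he he' => by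
      obtain ⟨h3, h4⟩ := rl_fix i hl he he'
      unfold refl
      rw [if_neg h3, h4]
    rw [e2]; ring
  rw [per_refl, e1]

/-- the limit along the even sides -/
lemma lim_even {β : ℝ} (hd : 2 ≤ d) (hβ : (6 * (d : ℝ) - 10) * |β| < Real.sqrt 3)
    {ν : Measure (Lk ℤ d → S3)} (hν : Gb μ β ν) {B : Finset (Lk ℤ d)} {F : (Lk ℤ d → S3) → ℝ}
    (hF : Og B F) :
    Tendsto (fun h : ℕ => ∫ V, F V ∂(nuT μ d (2 * h + 1 + 1) β)) atTop (𝓝 (∫ V, F V ∂ν)) :=
  (lim_torus μ hd hβ hν hF).comp (tendsto_atTop_atTop.2 fun b => ⟨b, fun h hb => by omega⟩)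

lemma Gb_sh {β : ℝ} (hd : 2 ≤ d) (hβ : (6 * (d : ℝ) - 10) * |β| < Real.sqrt 3)
    {ν : Measure (Lk ℤ d → S3)} (hν : Gb μ β ν) {B : Finset (Lk ℤ d)} {F : (Lk ℤ d → S3) → ℝ}
    (hF : Og B F) (a : Fin d → ℤ) : ∫ V, F (sh a V) ∂ν = ∫ V, F V ∂ν := by
  refine tendsto_nhds_unique (lim_torus μ hd hβ hν (hF.sh a)) ?_
  simp only [nuT_sh μ β a hF.bm]
  exact lim_torus μ hd hβ hν hF

lemma Gb_refl {β : ℝ} (hd : 2 ≤ d) (hβ : (6 * (d : ℝ) - 10) * |β| < Real.sqrt 3)
    {ν : Measure (Lk ℤ d → S3)} (hν : Gb μ β ν) {B : Finset (Lk ℤ d)} {F : (Lk ℤ d → S3) → ℝ}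
    (hF : Og B F) (i : Fin d) : ∫ V, F (refl i V) ∂ν = ∫ V, F V ∂ν := by
  refine tendsto_nhds_unique (lim_even μ hd hβ hν (hF.refl i)) ?_
  have h : ∀ h : ℕ, ∫ V, F (refl i V) ∂(nuT μ d (2 * h + 1 + 1) β) =
      ∫ V, F V ∂(nuT μ d (2 * h + 1 + 1) β) := fun h =>
    nuT_refl μ (h := h + 1) (by ring) i β hF.bm
  simp only [h]
  exact lim_even μ hd hβ hν hF

/-- reflection positivity in the infinite volume -/
lemma Gb_rp {β : ℝ} (hd : 2 ≤ d) (hβ : (6 * (d : ℝ) - 10) * |β| < Real.sqrt 3)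
    {ν : Measure (Lk ℤ d → S3)} (hν : Gb μ β ν) (i : Fin d) {B : Finset (Lk ℤ d)}
    (hB : ∀ e ∈ B, 0 ≤ e.1 i) {F : (Lk ℤ d → S3) → ℝ} (hF : Og B F) :
    0 ≤ ∫ V, F (refl i V) * F V ∂ν := by
  obtain ⟨L, hL⟩ := hF.lip
  obtain ⟨r, hr⟩ := exists_cube B
  refine ge_of_tendsto (lim_even μ hd hβ hν ((hF.refl i).mul hF)) ?_
  filter_upwards [eventually_ge_atTop (r + 1)] with h hh
  refine rp_torus i μ (h := h + 1) (by ring) β (B := B) (fun e he => ⟨hB e he, ?_⟩) hF.bm hL.dep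
  have := (mem_lks.1 (hr he) i).2
  push_cast
  omega

/-- **The mass gap.** -/
theorem gapG {β m : ℝ} (hd : 2 ≤ d) (hβ : (6 * (d : ℝ) - 10) * |β| < Real.sqrt 3) (hm : 0 ≤ m)
    (h1 : |β| * (6 * ((d : ℝ) - 2) + 2 * Real.cosh m) ≤ Real.sqrt 3)
    {ν : Measure (Lk ℤ d → S3)} (hν : Gb μ β ν) (i : Fin d) {B : Finset (Lk ℤ d)}
    (hB : ∀ e ∈ B, 0 ≤ e.1 i) {F : (Lk ℤ d → S3) → ℝ} (hF : Og B F) (t : ℕ) :
    |∫ V, F (refl i V) * F (sh (Pi.single i (t : ℤ)) V) ∂ν - (∫ V, F V ∂ν) ^ 2| ≤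
      Real.exp (-(m * t)) * (∫ V, F (refl i V) * F V ∂ν - (∫ V, F V ∂ν) ^ 2) := by
  have p1 := hν.prob
  set c := ∫ V, F V ∂ν with hc
  -- the truncated two point function
  set φ : ℕ → ℝ := fun t => ∫ V, F (refl i V) * F (sh (Pi.single i (t : ℤ)) V) ∂ν - c ^ 2 with hφ
  have hprod : ∀ a b : ℕ, ∫ V, F (sh (Pi.single i (a : ℤ)) (refl i V)) *
      F (sh (Pi.single i (b : ℤ)) V) ∂ν = φ (a + b) + c ^ 2 := by
    intro a b
    have h3 := Gb_sh μ hd hβ hν (((hF.sh (Pi.single i (a : ℤ))).refl i).mul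
      (hF.sh (Pi.single i (b : ℤ)))) (Pi.single i (a : ℤ))
    rw [← h3]
    simp only [hφ, sub_add_cancel]
    refine integral_congr_ae (Eventually.of_forall fun V => ?_)
    simp only
    rw [refl_sh, sh_sh, sh_sh, neg_add_cancel, sh_zero, ← Pi.single_add]
    congr 3
    push_cast
    rw [add_comm]
  have hmean : ∀ a : ℕ, ∫ V, F (sh (Pi.single i (a : ℤ)) (refl i V)) ∂ν = c := by
    intro a
    have h3 := Gb_refl μ hd hβ hν (hF.sh (Pi.single i (a : ℤ))) i
    rw [h3]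
    exact Gb_sh μ hd hβ hν hF _
  have hmean' : ∀ a : ℕ, ∫ V, F (sh (Pi.single i (a : ℤ)) V) ∂ν = c := fun a =>
    Gb_sh μ hd hβ hν hF _
  -- reflection positivity of linear combinations
  have hquad : ∀ (t : ℕ) (x y : ℝ), 0 ≤ x ^ 2 * φ 0 + 2 * x * y * φ t + y ^ 2 * φ (2 * t) := by
    intro t x y
    set F0 : (Lk ℤ d → S3) → ℝ := fun V => F (sh (Pi.single i ((0 : ℕ) : ℤ)) V) with hF0
    set Ft : (Lk ℤ d → S3) → ℝ := fun V => F (sh (Pi.single i (t : ℤ)) V) with hFt
    have hO0 : Og (shB (Pi.single i ((0 : ℕ) : ℤ)) B) F0 := hF.sh _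
    have hOt : Og (shB (Pi.single i (t : ℤ)) B) Ft := hF.sh _
    have hG := hO0.lin hOt x y (-(x + y) * c)
    have hpos : ∀ (s : ℕ), ∀ e ∈ shB (Pi.single i (s : ℤ)) B, 0 ≤ e.1 i := by
      intro s e he
      unfold shB at he
      obtain ⟨z, hz, rfl⟩ := Finset.mem_image.1 he
      have := hB z hz
      simp only [Pi.add_apply, Pi.single_eq_same]
      omega
    have h3 := Gb_rp μ hd hβ hν i (fun e he => by
      rcases Finset.mem_union.1 he with he | he
      · exact hpos _ e he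
      · exact hpos _ e he) hG
    have i0 := hO0.bm
    have it := hOt.bm
    have r0 : BM fun V => F0 (refl i V) := i0.comp (cont_refl i).measurable
    have rt' : BM fun V => Ft (refl i V) := it.comp (cont_refl i).measurable
    have e3 : ∫ V, (x * F0 (refl i V) + y * Ft (refl i V) + -(x + y) * c) *
        (x * F0 V + y * Ft V + -(x + y) * c) ∂ν =
        x ^ 2 * φ 0 + 2 * x * y * φ t + y ^ 2 * φ (2 * t) := by
      have e4 : ∀ V, (x * F0 (refl i V) + y * Ft (refl i V) + -(x + y) * c) *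
          (x * F0 V + y * Ft V + -(x + y) * c) =
          x ^ 2 * (F0 (refl i V) * F0 V) + x * y * (F0 (refl i V) * Ft V) +
          x * y * (Ft (refl i V) * F0 V) + y ^ 2 * (Ft (refl i V) * Ft V) +
          (-(x + y) * c * x) * (F0 V) + (-(x + y) * c * y) * (Ft V) +
          (-(x + y) * c * x) * (F0 (refl i V)) + (-(x + y) * c * y) * (Ft (refl i V)) +
          (-(x + y) * c) ^ 2 := by intro V; ring
      simp only [e4]
      have j1 := ((r0.mul i0).integrable ν).const_mul (x ^ 2)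
      have j2 := ((r0.mul it).integrable ν).const_mul (x * y)
      have j3 := ((rt'.mul i0).integrable ν).const_mul (x * y)
      have j4 := ((rt'.mul it).integrable ν).const_mul (y ^ 2)
      have j5 := (i0.integrable ν).const_mul (-(x + y) * c * x)
      have j6 := (it.integrable ν).const_mul (-(x + y) * c * y)
      have j7 := (r0.integrable ν).const_mul (-(x + y) * c * x)
      have j8 := (rt'.integrable ν).const_mul (-(x + y) * c * y)
      rw [lin9 ν j1 j2 j3 j4 j5 j6 j7 j8]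
      simp only [integral_const_mul]
      have k1 := hprod 0 0
      have k2 := hprod 0 t
      have k3 := hprod t 0
      have k4 := hprod t t
      have k5 := hmean' 0
      have k6 := hmean' t
      have k7 := hmean 0
      have k8 := hmean t
      simp only [hF0, hFt]
      rw [k1, k2, k3, k4, k5, k6, k7, k8]
      rw [← two_mul, zero_add, add_zero]
      ring_nf
    rwa [← e3]
  have hφ0 : 0 ≤ φ 0 := by have := hquad 0 1 0; simpa using this
  have hCS : ∀ t, φ t ^ 2 ≤ φ 0 * φ (2 * t) := by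
    intro t
    by_cases hz : φ (2 * t) = 0
    · -- then `φ t = 0`
      by_contra hcon
      rw [hz, mul_zero, not_le] at hcon
      have hne : φ t ≠ 0 := fun h => by rw [h] at hcon; simp at hcon
      have h3 := hquad t 1 (-(φ 0 + 1) / (2 * φ t))
      rw [hz] at h3
      have h4 : 2 * 1 * (-(φ 0 + 1) / (2 * φ t)) * φ t = -(φ 0 + 1) := by field_simp
      rw [h4] at h3
      linarith
    · have hp : 0 ≤ φ (2 * t) := by have := hquad t 0 1; simpa using this
      have hp' : 0 < φ (2 * t) := lt_of_le_of_ne hp (Ne.symm hz)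
      have h3 := hquad t (φ (2 * t)) (-φ t)
      have h4 : φ (2 * t) ^ 2 * φ 0 + 2 * φ (2 * t) * -φ t * φ t + (-φ t) ^ 2 * φ (2 * t) =
          φ (2 * t) * (φ 0 * φ (2 * t) - φ t ^ 2) := by ring
      rw [h4] at h3
      have := nonneg_of_mul_nonneg_right h3 hp'
      linarith
  -- the bound from clustering
  obtain ⟨K, hK⟩ := clusG μ hd hβ hm h1 hν i (hF.refl i) hF
  have hK' : ∀ t : ℕ, |φ t| * Real.exp (m * t) ≤ K := by
    intro t
    have h3 := hK t
    have h4 : ∫ V, F (refl i V) ∂ν = c := Gb_refl μ hd hβ hν hF i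
    rw [h4, hmean' t] at h3
    have h5 : |φ t| ≤ K * Real.exp (-(m * t)) := by
      simp only [hφ]
      rw [sq]
      exact h3
    calc |φ t| * Real.exp (m * t) ≤ K * Real.exp (-(m * t)) * Real.exp (m * t) :=
          mul_le_mul_of_nonneg_right h5 (Real.exp_pos _).le
      _ = K := by rw [mul_assoc, ← Real.exp_add]; simp
  -- conclusion
  have main : |φ t| * Real.exp (m * t) ≤ φ 0 := by
    by_contra hcon
    push Not at hcon
    set y : ℕ → ℝ := fun k => |φ (2 ^ k * t)| * Real.exp (m * ((2 ^ k * t : ℕ) : ℝ)) with hy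
    have hy0 : ∀ k, 0 ≤ y k := fun k => mul_nonneg (abs_nonneg _) (Real.exp_pos _).le
    have hstep : ∀ k, y k ^ 2 ≤ φ 0 * y (k + 1) := by
      intro k
      have h3 := hCS (2 ^ k * t)
      have h4 : 2 * (2 ^ k * t) = 2 ^ (k + 1) * t := by ring
      rw [h4] at h3
      simp only [hy]
      rw [mul_pow, sq_abs, ← Real.exp_nat_mul]
      have h5 : ((2 : ℕ) : ℝ) * (m * ((2 ^ k * t : ℕ) : ℝ)) = m * ((2 ^ (k + 1) * t : ℕ) : ℝ) := by
        push_cast; ring
      rw [h5, ← mul_assoc]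
      refine mul_le_mul_of_nonneg_right (h3.trans ?_) (Real.exp_pos _).le
      exact mul_le_mul_of_nonneg_left (le_abs_self _) hφ0
    have hy00 : φ 0 < y 0 := by simpa [hy] using hcon
    rcases hφ0.eq_or_lt with h0 | h0
    · have h3 := hstep 0
      rw [← h0, zero_mul] at h3
      rw [← h0] at hy00
      nlinarith
    · -- growth
      have hgrow : ∀ k, (y 0 / φ 0) ^ (2 ^ k) ≤ y k / φ 0 := by
        intro k
        induction k with
        | zero => simp
        | succ k ih =>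
          rw [pow_succ 2 k, pow_mul]
          have h3 : ((y 0 / φ 0) ^ (2 ^ k)) ^ 2 ≤ (y k / φ 0) ^ 2 :=
            pow_le_pow_left₀ (pow_nonneg (div_nonneg (hy0 0) h0.le) _) ih 2
          refine h3.trans ?_
          rw [div_pow, div_le_div_iff₀ (by positivity) h0]
          have := mul_le_mul_of_nonneg_right (hstep k) h0.le
          calc y k ^ 2 * φ 0 ≤ φ 0 * y (k + 1) * φ 0 := this
            _ = y (k + 1) * φ 0 ^ 2 := by ring
      have hx1 : 1 < y 0 / φ 0 := (one_lt_div h0).2 hy00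
      obtain ⟨n, hn⟩ := pow_unbounded_of_one_lt (K / φ 0) hx1
      have h3 := hgrow n
      have h4 : (y 0 / φ 0) ^ n ≤ (y 0 / φ 0) ^ (2 ^ n) :=
        pow_le_pow_right₀ hx1.le (Nat.lt_two_pow_self).le
      have h5 : y n / φ 0 ≤ K / φ 0 := div_le_div_of_nonneg_right (hK' _) h0.le
      linarith
  have hφ00 : φ 0 = ∫ V, F (refl i V) * F V ∂ν - c ^ 2 := by
    simp only [hφ]
    congr 1
    refine integral_congr_ae (Eventually.of_forall fun V => ?_)
    simp only
    rw [Nat.cast_zero, Pi.single_zero, sh_zero]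
  rw [← hφ00]
  have h6 : |φ t| = Real.exp (-(m * t)) * (|φ t| * Real.exp (m * t)) := by
    rw [mul_left_comm, ← Real.exp_add]; simp
  show |φ t| ≤ _
  rw [h6]
  exact mul_le_mul_of_nonneg_left main (Real.exp_pos _).le

end

end Pool.Agent.Q234.SC
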