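import Pool.Agent.Q234.SC.Lat

/-!
# Gauge fixing and the states of the gauge fixed system
-/

namespace Pool.Agent.Q234.SC

open MeasureTheory Quaternion Function Pool.Agent.H556R4.Dob Pool.Agent.H556R4.SU2

set_option linter.unusedSectionVars false
set_option autoImplicit false

section

variable {d : ℕ} (o : Fin d)

/-- the gauge function -/
noncomputable def gam (n : ℕ) (V : Lk ℤ d → S3) (z : Fin d → ℤ) : S3 :=
  ((List.range (z o + n).toNat).map fun s : ℕ => V (update z o ((s : ℤ) - n), o)).prod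

lemma gam_succ (n : ℕ) (V : Lk ℤ d → S3) (z : Fin d → ℤ) (hz : -(n : ℤ) ≤ z o) :
    gam o n V (z + un ℤ o) = gam o n V z * V (z, o) := by
  unfold gam
  have h1 : ((z + un ℤ o) o + n).toNat = (z o + n).toNat + 1 := by
    simp only [un, Pi.add_apply, Pi.single_eq_same]
    omega
  rw [h1, List.range_succ, List.map_append, List.prod_append]
  have h2 : ∀ t : ℤ, update (z + un ℤ o) o t = update z o t := by
    intro t
    funext i
    by_cases hi : i = o
    · subst hi; simp
    · simp [hi, un]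
  simp only [h2]
  congr 1
  simp only [List.map_cons, List.map_nil, List.prod_cons, List.prod_nil, mul_one]
  congr 2
  have h3 : (((z o + n).toNat : ℕ) : ℤ) - n = z o := by omega
  rw [h3, update_eq_self]

/-- the gauge fixed configuration -/
noncomputable def gf (n : ℕ) (V : Lk ℤ d → S3) : Lk ℤ d → S3 := gt (gam o n V) V

lemma gf_time (n : ℕ) (V : Lk ℤ d → S3) (z : Fin d → ℤ) (hz : -(n : ℤ) ≤ z o) :
    gf o n V (z, o) = 1 := by
  unfold gf gt
  simp only
  rw [gam_succ o n V z hz, mul_inv_cancel]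

lemma gam_upd (n : ℕ) (V : Lk ℤ d → S3) (x : Lk ℤ d) (hx : x.2 ≠ o) (g : S3) :
    gam o n (update V x g) = gam o n V := by
  funext z
  unfold gam
  congr 1
  refine List.map_congr_left fun s _ => ?_
  rw [update_of_ne]
  rintro rfl
  exact hx rfl

lemma gf_upd (n : ℕ) (V : Lk ℤ d → S3) (x : Lk ℤ d) (hx : x.2 ≠ o) (g : S3) :
    gf o n (update V x g) =
      update (gf o n V) x (gam o n V x.1 * g * (gam o n V (x.1 + un ℤ x.2))⁻¹) := by
  funext e
  unfold gf gt
  rw [gam_upd o n V x hx g]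
  by_cases he : e = x
  · subst he; simp
  · rw [update_of_ne he, update_of_ne he]

/-- the links based in the cube -/
noncomputable def lks (d n : ℕ) : Finset (Lk ℤ d) :=
  (Fintype.piFinset fun _ : Fin d => Finset.Icc (-(n : ℤ)) n) ×ˢ Finset.univ

lemma mem_lks {n : ℕ} {e : Lk ℤ d} : e ∈ lks d n ↔ ∀ i, -(n : ℤ) ≤ e.1 i ∧ e.1 i ≤ n := by
  unfold lks
  simp [Fintype.mem_piFinset]

lemma lks_mono {n m : ℕ} (h : n ≤ m) : lks d n ⊆ lks d m := by
  intro e he
  rw [mem_lks] at he ⊢
  intro i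
  have := he i
  constructor <;> omega

lemma gam_dep (n : ℕ) (V V' : Lk ℤ d → S3) (h : ∀ y ∈ lks d (n + 1), V y = V' y)
    (z : Fin d → ℤ) (hz : ∀ i, -(n : ℤ) - 1 ≤ z i ∧ z i ≤ n + 1) : gam o n V z = gam o n V' z := by
  unfold gam
  congr 1
  refine List.map_congr_left fun s hs => ?_
  rw [List.mem_range] at hs
  refine h _ (mem_lks.2 fun i => ?_)
  have h1 := hz i
  have h2 := hz o
  by_cases hi : i = o
  · subst hi
    simp only [update_self]
    push_cast
    omega
  · simp only [update_of_ne hi]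
    push_cast
    omega

lemma gf_dep (n : ℕ) {f : (Lk ℤ d → S3) → ℝ} (hf : DepOn (lks d n) f) :
    DepOn (lks d (n + 1)) fun V => f (gf o n V) := by
  intro V V' h
  refine hf _ _ fun e he => ?_
  rw [mem_lks] at he
  unfold gf gt
  rw [gam_dep o n V V' h e.1 fun i => by have := he i; omega,
    gam_dep o n V V' h (e.1 + un ℤ e.2) fun i => ?_, h e (mem_lks.2 fun i => by
      have := he i; push_cast; omega)]
  have := he i
  simp only [Pi.add_apply, un]
  by_cases hi : i = e.2
  · subst hi; simp only [Pi.single_eq_same]; omega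
  · rw [Pi.single_eq_of_ne hi]; omega

end

section

variable {d : ℕ} (o : Fin d) [MeasurableSpace S3] [BorelSpace S3]

lemma cont_gam' (n : ℕ) (z : Fin d → ℤ) : Continuous fun V : Lk ℤ d → S3 => gam o n V z := by
  unfold gam
  exact continuous_list_prod _ fun s _ => continuous_apply _

lemma cont_gf (n : ℕ) : Continuous (gf (d := d) o n) := by
  refine continuous_pi fun e => ?_
  unfold gf gt
  exact ((cont_gam' o n _).mul (continuous_apply e)).mul (cont_gam' o n _).inv

lemma cont_fl (β : ℝ) (e : Lk ℤ d) : Continuous (fl (R := ℤ) β e) := by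
  unfold fl stp stm
  have h : ∀ y : Lk ℤ d, Continuous fun V : Lk ℤ d → S3 => V y := fun y => continuous_apply y
  have h2 : Continuous fun V : Lk ℤ d → S3 => ∑ j ∈ Finset.univ.erase e.2,
      ((((V (e.1, j) * V (e.1 + un ℤ j, e.2) * (V (e.1 + un ℤ e.2, j))⁻¹ : S3)) : ℍ[ℝ]) +
      (((V (e.1 - un ℤ j, j))⁻¹ * V (e.1 - un ℤ j, e.2) * V (e.1 - un ℤ j + un ℤ e.2, j) : S3) : ℍ[ℝ])) :=
    continuous_finsetSum _ fun j _ =>
      (continuous_subtype_val.comp (((h _).mul (h _)).mul (h _).inv)).add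
      (continuous_subtype_val.comp (((h _).inv.mul (h _)).mul (h _)))
  exact h2.const_smul (2 * β)

variable (μ : Measure S3) [IsProbabilityMeasure μ] [μ.IsMulLeftInvariant] [μ.IsMulRightInvariant]
  [μ.IsInvInvariant]

/-- single site equations in the cube -/
structure Gib (β : ℝ) (n : ℕ) (ν : Measure (Lk ℤ d → S3)) : Prop where
  prob : IsProbabilityMeasure ν
  inv : ∀ x ∈ lks d n, ∀ f : (Lk ℤ d → S3) → ℝ, BM f → DepOn (lks d (n + 1)) f →
    ∫ V, hb μ (fl β) x f V ∂ν = ∫ V, f V ∂ν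

/-- gauge covariance of the heat bath -/
lemma hb_gf (β : ℝ) (n : ℕ) {x : Lk ℤ d} (hx : x.2 ≠ o) {f : (Lk ℤ d → S3) → ℝ}
    (V : Lk ℤ d → S3) :
    hb μ (fl β) x f (gf o n V) = hb μ (fl β) x (fun V => f (gf o n V)) V := by
  unfold hb Eh Zs
  set a := gam o n V x.1
  set b := gam o n V (x.1 + un ℤ x.2)
  have hfl : fl β x (gf o n V) = (a : ℍ[ℝ]) * fl β x V * star (b : ℍ[ℝ]) := fl_gt β x _ V
  have hin : ∀ g : S3, inner ℝ (fl β x (gf o n V)) ((a * g * b⁻¹ : S3) : ℍ[ℝ]) =
      inner ℝ (fl β x V) (g : ℍ[ℝ]) := by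
    intro g
    rw [hfl, Metric.unitSphere.coe_mul, Metric.unitSphere.coe_mul, coe_inv, inner_def, inner_def]
    simp only [star_mul, star_star]
    have e1 : (a : ℍ[ℝ]) * fl β x V * star (b : ℍ[ℝ]) * ((b : ℍ[ℝ]) * (star (g : ℍ[ℝ]) * star (a : ℍ[ℝ])))
        = (a : ℍ[ℝ]) * (fl β x V * star (g : ℍ[ℝ])) * star (a : ℍ[ℝ]) := by
      have e2 : star (b : ℍ[ℝ]) * (b : ℍ[ℝ]) = 1 := star_mul_self' b
      calc _ = (a : ℍ[ℝ]) * fl β x V * (star (b : ℍ[ℝ]) * (b : ℍ[ℝ])) *
            (star (g : ℍ[ℝ]) * star (a : ℍ[ℝ])) := by noncomm_ring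
        _ = _ := by rw [e2]; noncomm_ring
    rw [e1, re_conj]
  have hch : ∀ F : S3 → ℝ, ∫ s, F s ∂μ = ∫ g, F (a * g * b⁻¹) ∂μ := by
    intro F
    rw [integral_mul_left_eq_self (fun g => F (g * b⁻¹)) a, integral_mul_right_eq_self]
  rw [hch (fun s => f (update (gf o n V) x s) * Real.exp (inner ℝ (fl β x (gf o n V)) (s : ℍ[ℝ]))),
    hch (fun s => Real.exp (inner ℝ (fl β x (gf o n V)) (s : ℍ[ℝ])))]
  simp only [hin, gf_upd o n V x hx]
  rfl

/-- the gauge fixed state with density `h` -/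
noncomputable def Eg (n : ℕ) (ν : Measure (Lk ℤ d → S3)) (h : (Lk ℤ d → S3) → ℝ)
    (f : (Lk ℤ d → S3) → ℝ) : ℝ := (∫ V, f (gf o n V) * h V ∂ν) / ∫ V, h V ∂ν

/-- configurations with trivial links in the direction `o` in the cube -/
def Om (n : ℕ) : Set (Lk ℤ d → S3) := {V | ∀ y ∈ lks d n, y.2 = o → V y = 1}

lemma meas_in (β : ℝ) (x : Lk ℤ d) :
    Measurable fun p : (Lk ℤ d → S3) × S3 => inner ℝ (fl β x p.1) (p.2 : ℍ[ℝ]) :=
  (((cont_fl β x).comp continuous_fst).inner
    (continuous_subtype_val.comp continuous_snd)).measurable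

/-- the fields are admissible -/
lemma fld_ok (β : ℝ) (n : ℕ) (S : Finset (Lk ℤ d)) (hS : S ⊆ lks d n) :
    Fld (fl β) (lks d (n + 1)) S (Cl β) where
  sub := hS.trans (lks_mono (Nat.le_succ n))
  meas x _ := meas_in β x
  self x _ V g := by
    refine fl_dep β x _ _ fun y hy => ?_
    rw [update_of_ne]
    rintro rfl
    unfold nbs at hy
    obtain ⟨j, hj, hy⟩ := Finset.mem_biUnion.mp hy
    have hj' : j ≠ y.2 := Finset.ne_of_mem_erase hj
    obtain ⟨y1, k⟩ := y
    simp only [Finset.mem_insert, Finset.mem_singleton, Prod.mk.injEq] at hy hj'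
    have h1 : ∀ i : Fin d, un ℤ i ≠ 0 := fun i h => by
      have := congrFun h i
      simp [un] at this
    rcases hy with h | h | h | h | h | h
    · exact hj' h.2.symm
    · have : un ℤ j = 0 := by simpa using h.1
      exact h1 _ this
    · exact hj' h.2.symm
    · exact hj' h.2.symm
    · have : un ℤ j = 0 := by
        have h3 := h.1
        rwa [eq_comm, sub_eq_self] at h3
      exact h1 _ this
    · exact hj' h.2.symm
  dep x hx V V' h := by
    refine fl_dep β x _ _ fun y hy => h y ?_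
    have hx' := hS hx
    rw [mem_lks] at hx' ⊢
    intro i
    have h2 := hx' i
    have h3 : ∀ j : Fin d, (un ℤ j : Fin d → ℤ) i = if i = j then 1 else 0 := fun j => by
      unfold un; rw [Pi.single_apply]
    unfold nbs at hy
    obtain ⟨j, hj, hy⟩ := Finset.mem_biUnion.mp hy
    have hj' : j ≠ x.2 := Finset.ne_of_mem_erase hj
    simp only [Finset.mem_insert, Finset.mem_singleton] at hy
    push_cast
    rcases hy with rfl | rfl | rfl | rfl | rfl | rfl <;>
      simp only [Pi.add_apply, Pi.sub_apply, h3] <;> (try split_ifs) <;>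
        omega
  nn x y := Cl_nonneg β x y
  lip x _ y _ V k := fl_lip β x y V k

/-- the gauge fixed state satisfies the single site equations -/
lemma sta_ok (β : ℝ) (n : ℕ) (ν : Measure (Lk ℤ d → S3)) (hν : Gib μ β (n + 1) ν)
    (S : Finset (Lk ℤ d)) (hS : S ⊆ lks d n) (hSo : ∀ x ∈ S, x.2 ≠ o)
    (h : (Lk ℤ d → S3) → ℝ) (hh : BM h) (hd : DepOn (lks d (n + 2)) h) {m : ℝ} (hm : 0 < m)
    (hp : ∀ V, m ≤ h V) (hx : ∀ x ∈ S, ∀ V g, h (update V x g) = h V) :
    Sta μ (fl β) (Om o (n + 1)) (lks d (n + 1)) S (Eg o (n + 1) ν h) where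
  bd f hf c c' hcc := by
    have := hν.prob
    have hpos : 0 < ∫ V, h V ∂ν := integral_pos_of_lb ν hh hm hp
    have hfb : BM fun V => f (gf o (n + 1) V) := hf.comp (cont_gf o (n + 1)).measurable
    have hOm : ∀ V, gf o (n + 1) V ∈ Om o (n + 1) := by
      intro V y hy hyo
      obtain ⟨y1, k⟩ := y
      simp only at hyo
      subst hyo
      refine gf_time _ _ _ _ ?_
      exact (mem_lks.1 hy _).1
    unfold Eg
    rw [le_div_iff₀ hpos, div_le_iff₀ hpos, ← integral_const_mul, ← integral_const_mul]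
    constructor
    · refine integral_mono ((hh.integrable ν).const_mul _) ((hfb.mul hh).integrable ν) fun V => ?_
      exact mul_le_mul_of_nonneg_right (hcc _ (hOm V)).1 (hm.le.trans (hp V))
    · refine integral_mono ((hfb.mul hh).integrable ν) ((hh.integrable ν).const_mul _) fun V => ?_
      exact mul_le_mul_of_nonneg_right (hcc _ (hOm V)).2 (hm.le.trans (hp V))
  inv x hxS f hf hfd := by
    have := hν.prob
    unfold Eg
    congr 1
    have hfb : BM fun V => f (gf o (n + 1) V) := hf.comp (cont_gf o (n + 1)).measurable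
    have e1 : ∀ V, hb μ (fl β) x f (gf o (n + 1) V) * h V =
        hb μ (fl β) x (fun V => f (gf o (n + 1) V) * h V) V := by
      intro V
      rw [hb_gf o μ β (n + 1) (hSo x hxS) V]
      unfold hb Eh
      rw [div_mul_eq_mul_div, ← integral_mul_const]
      congr 1
      refine integral_congr_ae (Filter.Eventually.of_forall fun g => ?_)
      simp only
      rw [hx x hxS V g]
      ring
    simp only [e1]
    refine hν.inv x (lks_mono (Nat.le_succ n) (hS hxS)) _ (hfb.mul hh) ?_
    intro V V' hVV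
    have e3 := gf_dep o (n + 1) hfd V V' hVV
    simp only at e3
    show f (gf o (n + 1) V) * h V = f (gf o (n + 1) V') * h V'
    rw [e3, hd V V' hVV]

end

end Pool.Agent.Q234.SC
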