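import Pool.Agent.Q234.SC.Comp

/-!
# The lattice: plaquettes, staples, the field at a link, gauge transformations
-/

namespace Pool.Agent.Q234.SC

open MeasureTheory Quaternion Function Pool.Agent.H556R4.Dob Pool.Agent.H556R4.SU2

set_option linter.unusedSectionVars false
set_option autoImplicit false

/-- links of the lattice with coordinates in `R` -/
abbrev Lk (R : Type) (d : ℕ) := (Fin d → R) × Fin d

section

variable {R : Type} [AddCommGroup R] [One R] {d : ℕ}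

/-- the unit vector -/
def un (R : Type) [AddCommGroup R] [One R] {d : ℕ} (i : Fin d) : Fin d → R := Pi.single i 1

/-- the plaquette variable -/
noncomputable def plq (V : Lk R d → S3) (x : Fin d → R) (i j : Fin d) : S3 :=
  V (x, i) * V (x + un R i, j) * (V (x + un R j, i))⁻¹ * (V (x, j))⁻¹

/-- gauge transformation -/
noncomputable def gt (γ : (Fin d → R) → S3) (V : Lk R d → S3) : Lk R d → S3 :=
  fun e => γ e.1 * V e * (γ (e.1 + un R e.2))⁻¹

lemma plq_gt (γ : (Fin d → R) → S3) (V : Lk R d → S3) (x : Fin d → R) (i j : Fin d) :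
    plq (gt γ V) x i j = γ x * plq V x i j * (γ x)⁻¹ := by
  unfold plq gt
  simp only
  rw [add_right_comm x (un R j) (un R i)]
  group

/-- the staple in the positive direction -/
noncomputable def stp (V : Lk R d → S3) (x : Fin d → R) (k j : Fin d) : S3 :=
  V (x, j) * V (x + un R j, k) * (V (x + un R k, j))⁻¹

/-- the staple in the negative direction -/
noncomputable def stm (V : Lk R d → S3) (x : Fin d → R) (k j : Fin d) : S3 :=
  (V (x - un R j, j))⁻¹ * V (x - un R j, k) * V (x - un R j + un R k, j)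

lemma stp_gt (γ : (Fin d → R) → S3) (V : Lk R d → S3) (x : Fin d → R) (k j : Fin d) :
    stp (gt γ V) x k j = γ x * stp V x k j * (γ (x + un R k))⁻¹ := by
  unfold stp gt
  simp only
  rw [add_right_comm x (un R j) (un R k)]
  group

lemma stm_gt (γ : (Fin d → R) → S3) (V : Lk R d → S3) (x : Fin d → R) (k j : Fin d) :
    stm (gt γ V) x k j = γ x * stm V x k j * (γ (x + un R k))⁻¹ := by
  unfold stm gt
  simp only
  rw [sub_add_cancel, add_right_comm (x - un R j) (un R k) (un R j), sub_add_cancel]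
  group

/-- the field at the link `e` -/
noncomputable def fl (β : ℝ) (e : Lk R d) (V : Lk R d → S3) : ℍ[ℝ] :=
  (2 * β) • ∑ j ∈ Finset.univ.erase e.2, ((stp V e.1 e.2 j : ℍ[ℝ]) + (stm V e.1 e.2 j : ℍ[ℝ]))

lemma fl_gt (β : ℝ) (e : Lk R d) (γ : (Fin d → R) → S3) (V : Lk R d → S3) :
    fl β e (gt γ V) = (γ e.1 : ℍ[ℝ]) * fl β e V * star (γ (e.1 + un R e.2) : ℍ[ℝ]) := by
  unfold fl
  rw [mul_smul_comm, smul_mul_assoc, Finset.mul_sum, Finset.sum_mul]
  congr 1
  refine Finset.sum_congr rfl fun j _ => ?_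
  rw [stp_gt, stm_gt]
  simp only [Metric.unitSphere.coe_mul, coe_inv]
  noncomm_ring

lemma norm_mul3 (a b c a' b' c' : S3) :
    ‖((a * b * c : S3) : ℍ[ℝ]) - ((a' * b' * c' : S3) : ℍ[ℝ])‖ ≤
      ‖(a : ℍ[ℝ]) - a'‖ + ‖(b : ℍ[ℝ]) - b'‖ + ‖(c : ℍ[ℝ]) - c'‖ := by
  simp only [Metric.unitSphere.coe_mul]
  have e : (a : ℍ[ℝ]) * b * c - a' * b' * c' =
      ((a : ℍ[ℝ]) - a') * b * c + (a' : ℍ[ℝ]) * ((b : ℍ[ℝ]) - b') * c +
        (a' : ℍ[ℝ]) * b' * ((c : ℍ[ℝ]) - c') := by noncomm_ring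
  rw [e]
  refine (norm_add₃_le).trans ?_
  simp only [norm_mul, norm_coe', mul_one, one_mul]
  exact le_rfl

lemma norm_inv_sub (a b : S3) : ‖((a⁻¹ : S3) : ℍ[ℝ]) - ((b⁻¹ : S3) : ℍ[ℝ])‖ = ‖(a : ℍ[ℝ]) - b‖ := by
  rw [coe_inv, coe_inv, ← star_sub, norm_star]

variable [DecidableEq R]

/-- the neighbours of the link `e` through the direction `j`, as a sum of indicators -/
noncomputable def nb (j : Fin d) (e y : Lk R d) : ℝ :=
  (if y = (e.1, j) then 1 else 0) + (if y = (e.1 + un R j, e.2) then 1 else 0) +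
    (if y = (e.1 + un R e.2, j) then 1 else 0) + ((if y = (e.1 - un R j, j) then 1 else 0) +
    (if y = (e.1 - un R j, e.2) then 1 else 0) + (if y = (e.1 - un R j + un R e.2, j) then 1 else 0))

/-- the Lipschitz constants of the fields -/
noncomputable def Cl (β : ℝ) (e y : Lk R d) : ℝ :=
  2 * |β| * ∑ j ∈ Finset.univ.erase e.2, nb j e y

lemma nb_nonneg (j : Fin d) (e y : Lk R d) : 0 ≤ nb j e y := by
  unfold nb
  positivity

lemma Cl_nonneg (β : ℝ) (e y : Lk R d) : 0 ≤ Cl β e y :=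
  mul_nonneg (by positivity) (Finset.sum_nonneg fun j _ => nb_nonneg j e y)

lemma upd_sub (V : Lk R d → S3) (y z : Lk R d) (k : S3) :
    ‖((update V y k z : S3) : ℍ[ℝ]) - (V z : ℍ[ℝ])‖ = (if y = z then (1 : ℝ) else 0) *
      ‖(k : ℍ[ℝ]) - V y‖ := by
  by_cases h : y = z
  · subst h; simp
  · rw [update_of_ne (Ne.symm h), if_neg h]; simp

lemma fl_lip (β : ℝ) (e y : Lk R d) (V : Lk R d → S3) (k : S3) :
    ‖fl β e (update V y k) - fl β e V‖ ≤ Cl β e y * ‖(k : ℍ[ℝ]) - V y‖ := by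
  unfold fl Cl
  rw [← smul_sub, norm_smul, ← Finset.sum_sub_distrib, Real.norm_eq_abs, abs_mul, abs_two,
    mul_assoc (2 * |β|)]
  refine mul_le_mul_of_nonneg_left ?_ (mul_nonneg zero_le_two (abs_nonneg β))
  refine (norm_sum_le _ _).trans ?_
  rw [Finset.sum_mul]
  refine Finset.sum_le_sum fun j _ => ?_
  have h1 : ‖(stp (update V y k) e.1 e.2 j : ℍ[ℝ]) - (stp V e.1 e.2 j : ℍ[ℝ])‖ ≤
      ((if y = (e.1, j) then 1 else 0) + (if y = (e.1 + un R j, e.2) then 1 else 0) +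
        (if y = (e.1 + un R e.2, j) then 1 else 0)) * ‖(k : ℍ[ℝ]) - V y‖ := by
    unfold stp
    refine (norm_mul3 _ _ _ _ _ _).trans ?_
    rw [norm_inv_sub, upd_sub, upd_sub, upd_sub]
    exact le_of_eq (by ring)
  have h2 : ‖(stm (update V y k) e.1 e.2 j : ℍ[ℝ]) - (stm V e.1 e.2 j : ℍ[ℝ])‖ ≤
      ((if y = (e.1 - un R j, j) then (1 : ℝ) else 0) + (if y = (e.1 - un R j, e.2) then 1 else 0) +
        (if y = (e.1 - un R j + un R e.2, j) then 1 else 0)) * ‖(k : ℍ[ℝ]) - V y‖ := by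
    unfold stm
    refine (norm_mul3 _ _ _ _ _ _).trans ?_
    rw [norm_inv_sub, upd_sub, upd_sub, upd_sub]
    exact le_of_eq (by ring)
  calc _ = ‖((stp (update V y k) e.1 e.2 j : ℍ[ℝ]) - (stp V e.1 e.2 j : ℍ[ℝ])) +
        ((stm (update V y k) e.1 e.2 j : ℍ[ℝ]) - (stm V e.1 e.2 j : ℍ[ℝ]))‖ := by
        congr 1; abel
    _ ≤ _ := norm_add_le _ _
    _ ≤ _ := add_le_add h1 h2
    _ = _ := by unfold nb; ring

/-- the links which enter the field at `e` -/
def nbs (e : Lk R d) : Finset (Lk R d) :=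
  (Finset.univ.erase e.2).biUnion fun j =>
    {(e.1, j), (e.1 + un R j, e.2), (e.1 + un R e.2, j), (e.1 - un R j, j), (e.1 - un R j, e.2),
      (e.1 - un R j + un R e.2, j)}

lemma fl_dep (β : ℝ) (e : Lk R d) (V V' : Lk R d → S3) (h : ∀ y ∈ nbs e, V y = V' y) :
    fl β e V = fl β e V' := by
  unfold fl
  congr 1
  refine Finset.sum_congr rfl fun j hj => ?_
  have h' : ∀ y ∈ ({(e.1, j), (e.1 + un R j, e.2), (e.1 + un R e.2, j), (e.1 - un R j, j),
      (e.1 - un R j, e.2), (e.1 - un R j + un R e.2, j)} : Finset (Lk R d)), V y = V' y :=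
    fun y hy => h y (Finset.mem_biUnion.mpr ⟨j, hj, hy⟩)
  simp only [Finset.mem_insert, Finset.mem_singleton, forall_eq_or_imp, forall_eq] at h'
  obtain ⟨h1, h2, h3, h4, h5, h6⟩ := h'
  unfold stp stm
  rw [h1, h2, h3, h4, h5, h6]

end

end Pool.Agent.Q234.SC
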