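import Pool.Agent.Q234.SC.Gf

/-!
# The comparison estimate for the gauge fixed states
-/

namespace Pool.Agent.Q234.SC

open MeasureTheory Quaternion Function Pool.Agent.H556R4.Dob Pool.Agent.H556R4.SU2

set_option linter.unusedSectionVars false
set_option autoImplicit false

section

variable {d : ℕ} (o : Fin d)

/-- weights on the links which vanish in the direction `o` -/
noncomputable def wt (f : (Fin d → ℤ) → ℝ) (y : Lk ℤ d) : ℝ := if y.2 = o then 0 else f y.1

lemma wt_nonneg {f : (Fin d → ℤ) → ℝ} (hf : ∀ z, 0 ≤ f z) (y : Lk ℤ d) : 0 ≤ wt o f y := by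
  unfold wt; split_ifs; exacts [le_rfl, hf _]

/-- the sum of the weights of the neighbours through the direction `j` -/
noncomputable def six (a : Lk ℤ d → ℝ) (x : Lk ℤ d) (j : Fin d) : ℝ :=
  a (x.1, j) + a (x.1 + un ℤ j, x.2) + a (x.1 + un ℤ x.2, j) + (a (x.1 - un ℤ j, j) +
    a (x.1 - un ℤ j, x.2) + a (x.1 - un ℤ j + un ℤ x.2, j))

lemma ind_sum (B : Finset (Lk ℤ d)) {a : Lk ℤ d → ℝ} (ha : ∀ y, 0 ≤ a y) (w : Lk ℤ d) :
    ∑ y ∈ B, (if y = w then (1 : ℝ) else 0) * a y ≤ a w := by
  have h : ∀ y ∈ B, (if y = w then (1 : ℝ) else 0) * a y = if y = w then a w else 0 := by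
    intro y _
    by_cases h : y = w
    · subst h; simp
    · simp [h]
  rw [Finset.sum_congr rfl h, Finset.sum_ite_eq']
  split_ifs
  exacts [le_rfl, ha w]

lemma row (β : ℝ) (B : Finset (Lk ℤ d)) {a : Lk ℤ d → ℝ} (ha : ∀ y, 0 ≤ a y) (x : Lk ℤ d) :
    ∑ y ∈ B, kc * Cl β x y * a y ≤ kc * (2 * |β|) * ∑ j ∈ Finset.univ.erase x.2, six a x j := by
  have e : ∑ y ∈ B, kc * Cl β x y * a y =
      kc * (2 * |β|) * ∑ j ∈ Finset.univ.erase x.2, ∑ y ∈ B, nb j x y * a y := by
    rw [Finset.sum_comm, Finset.mul_sum]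
    refine Finset.sum_congr rfl fun y _ => ?_
    unfold Cl
    rw [← Finset.sum_mul]
    ring
  rw [e]
  refine mul_le_mul_of_nonneg_left (Finset.sum_le_sum fun j _ => ?_)
    (mul_nonneg kc_nonneg (by positivity))
  have e2 : ∀ y, nb j x y * a y = (if y = (x.1, j) then (1 : ℝ) else 0) * a y +
      (if y = (x.1 + un ℤ j, x.2) then (1 : ℝ) else 0) * a y +
      (if y = (x.1 + un ℤ x.2, j) then (1 : ℝ) else 0) * a y +
      ((if y = (x.1 - un ℤ j, j) then (1 : ℝ) else 0) * a y +
      (if y = (x.1 - un ℤ j, x.2) then (1 : ℝ) else 0) * a y +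
      (if y = (x.1 - un ℤ j + un ℤ x.2, j) then (1 : ℝ) else 0) * a y) := by
    intro y; unfold nb; ring
  simp only [e2, Finset.sum_add_distrib]
  unfold six
  have h := fun w => ind_sum B ha w
  have h1 := h (x.1, j)
  have h2 := h (x.1 + un ℤ j, x.2)
  have h3 := h (x.1 + un ℤ x.2, j)
  have h4 := h (x.1 - un ℤ j, j)
  have h5 := h (x.1 - un ℤ j, x.2)
  have h6 := h (x.1 - un ℤ j + un ℤ x.2, j)
  linarith

/-- the total weight of the neighbours of a link which is not in the direction `o` -/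
lemma six_sum {f : (Fin d → ℤ) → ℝ} {x : Lk ℤ d} (hx : x.2 ≠ o) {K K' : ℝ}
    (hK : ∀ j, j ≠ o → ∀ w, (w = x.1 ∨ w = x.1 + un ℤ j ∨ w = x.1 + un ℤ x.2 ∨ w = x.1 - un ℤ j ∨
      w = x.1 - un ℤ j + un ℤ x.2) → f w ≤ K)
    (hK' : f (x.1 + un ℤ o) + f (x.1 - un ℤ o) ≤ K') :
    ∑ j ∈ Finset.univ.erase x.2, six (wt o f) x j ≤ 6 * ((d : ℝ) - 2) * K + K' := by
  have ho : o ∈ Finset.univ.erase x.2 := Finset.mem_erase.2 ⟨Ne.symm hx, Finset.mem_univ _⟩
  rw [← Finset.add_sum_erase _ _ ho, add_comm]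
  refine add_le_add ?_ ?_
  · have h1 : ∀ j ∈ (Finset.univ.erase x.2).erase o, six (wt o f) x j ≤ 6 * K := by
      intro j hj
      have hjo : j ≠ o := Finset.ne_of_mem_erase hj
      unfold six wt
      simp only [hjo, hx, if_false]
      have a1 := hK j hjo x.1 (by simp)
      have a2 := hK j hjo (x.1 + un ℤ j) (by simp)
      have a3 := hK j hjo (x.1 + un ℤ x.2) (by simp)
      have a4 := hK j hjo (x.1 - un ℤ j) (by simp)
      have a5 := hK j hjo (x.1 - un ℤ j + un ℤ x.2) (by simp)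
      linarith
    refine (Finset.sum_le_sum h1).trans (le_of_eq ?_)
    rw [Finset.sum_const, Finset.card_erase_of_mem ho, Finset.card_erase_of_mem (Finset.mem_univ _),
      Finset.card_univ, Fintype.card_fin, nsmul_eq_mul]
    have hd : 2 ≤ d := by
      have h2 : Finset.card ({o, x.2} : Finset (Fin d)) ≤ Fintype.card (Fin d) :=
        Finset.card_le_univ _
      rwa [Finset.card_pair (Ne.symm hx), Fintype.card_fin] at h2
    have : ((d - 1 - 1 : ℕ) : ℝ) = (d : ℝ) - 2 := by
      have : d - 1 - 1 = d - 2 := by omega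
      rw [this, Nat.cast_sub hd]; norm_num
    rw [this]; ring
  · unfold six wt
    simp only [hx, if_false, if_true]
    linarith

/-- the decay in the direction `o` -/
noncomputable def Tf (m : ℝ) (t : ℤ) (s : ℤ) : ℝ := min 1 (Real.exp (m * ((s : ℝ) - t)))

lemma Tf_nonneg (m : ℝ) (t s : ℤ) : 0 ≤ Tf m t s := le_min zero_le_one (Real.exp_pos _).le

lemma Tf_sup (m : ℝ) (t s : ℤ) :
    Tf m t (s + 1) + Tf m t (s - 1) ≤ 2 * Real.cosh m * Tf m t s := by
  unfold Tf
  rcases le_total 1 (Real.exp (m * ((s : ℝ) - t))) with h | h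
  · rw [min_eq_left h]
    have h1 : min 1 (Real.exp (m * (((s + 1 : ℤ) : ℝ) - t))) ≤ 1 := min_le_left _ _
    have h2 : min 1 (Real.exp (m * (((s - 1 : ℤ) : ℝ) - t))) ≤ 1 := min_le_left _ _
    have := Real.one_le_cosh m
    linarith
  · rw [min_eq_right h]
    have h1 : min 1 (Real.exp (m * (((s + 1 : ℤ) : ℝ) - t))) ≤
        Real.exp m * Real.exp (m * ((s : ℝ) - t)) := by
      rw [← Real.exp_add]
      refine (min_le_right _ _).trans (le_of_eq ?_)
      congr 1; push_cast; ring
    have h2 : min 1 (Real.exp (m * (((s - 1 : ℤ) : ℝ) - t))) ≤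
        Real.exp (-m) * Real.exp (m * ((s : ℝ) - t)) := by
      rw [← Real.exp_add]
      refine (min_le_right _ _).trans (le_of_eq ?_)
      congr 1; push_cast; ring
    rw [Real.cosh_eq]
    linarith

/-- the influence of the boundary of the cube -/
noncomputable def Bf (m' : ℝ) (n : ℕ) (z : Fin d → ℤ) : ℝ :=
  ∑ i, Real.cosh (m' * z i) / Real.cosh (m' * n)

lemma Bf_nonneg (m' : ℝ) (n : ℕ) (z : Fin d → ℤ) : 0 ≤ Bf m' n z :=
  Finset.sum_nonneg fun i _ => div_nonneg (Real.cosh_pos _).le (Real.cosh_pos _).le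

lemma cosh_add_le (a b : ℝ) : Real.cosh (a + b) ≤ Real.exp |b| * Real.cosh a := by
  rw [Real.cosh_eq, Real.cosh_eq, neg_add, Real.exp_add, Real.exp_add]
  have h1 : Real.exp b ≤ Real.exp |b| := Real.exp_le_exp.2 (le_abs_self b)
  have h2 : Real.exp (-b) ≤ Real.exp |b| := Real.exp_le_exp.2 (neg_le_abs b)
  have := mul_le_mul_of_nonneg_left h1 (Real.exp_pos a).le
  have := mul_le_mul_of_nonneg_left h2 (Real.exp_pos (-a)).le
  linarith

lemma Bf_near {m' : ℝ} (hm : 0 ≤ m') (n : ℕ) {z w : Fin d → ℤ} (h : ∀ i, |w i - z i| ≤ 1) :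
    Bf m' n w ≤ Real.exp m' * Bf m' n z := by
  unfold Bf
  rw [Finset.mul_sum]
  refine Finset.sum_le_sum fun i _ => ?_
  rw [← mul_div_assoc]
  refine div_le_div_of_nonneg_right ?_ (Real.cosh_pos _).le
  have e : m' * (w i : ℝ) = m' * z i + m' * ((w i : ℝ) - z i) := by ring
  rw [e]
  refine (cosh_add_le _ _).trans (mul_le_mul_of_nonneg_right (Real.exp_le_exp.2 ?_)
    (Real.cosh_pos _).le)
  rw [abs_mul, abs_of_nonneg hm]
  have h2 : |(w i : ℝ) - z i| ≤ 1 := by exact_mod_cast h i
  nlinarith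

lemma Bf_bdry (m' : ℝ) (n : ℕ) {z : Fin d → ℤ} {i : Fin d} (h : z i = n ∨ z i = -(n : ℤ)) :
    1 ≤ Bf m' n z := by
  unfold Bf
  refine le_trans (le_of_eq ?_) (Finset.single_le_sum (f := fun j =>
    Real.cosh (m' * z j) / Real.cosh (m' * n)) (fun _ _ => div_nonneg (Real.cosh_pos _).le
      (Real.cosh_pos _).le) (Finset.mem_univ i))
  rcases h with h | h
  · simp only [h]
    push_cast
    rw [div_self (Real.cosh_pos _).ne']
  · simp only [h]
    push_cast
    rw [mul_neg, Real.cosh_neg, div_self (Real.cosh_pos _).ne']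

end

section

variable {d : ℕ} (o : Fin d) [MeasurableSpace S3] [BorelSpace S3]
  (μ : Measure S3) [IsProbabilityMeasure μ] [μ.IsMulLeftInvariant] [μ.IsMulRightInvariant]
  [μ.IsInvInvariant]

/-- the links at which the single site equations are used -/
noncomputable def Sr (n : ℕ) (B : Finset (Lk ℤ d)) : Finset (Lk ℤ d) :=
  (lks d n).filter fun x => x.2 ≠ o ∧ x ∉ B

/-- **The comparison estimate.** -/
theorem main_est {β m' : ℝ} (hm' : 0 < m')
    (h2 : kc * (2 * |β|) * ((6 * ((d : ℝ) - 2) + 2) * Real.exp m') ≤ 1)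
    {T : ℤ → ℝ} (hT0 : ∀ s, 0 ≤ T s)
    (hT : ∀ s, kc * (2 * |β|) * (6 * ((d : ℝ) - 2) * T s + (T (s + 1) + T (s - 1))) ≤ T s)
    {n : ℕ} {ν ν' : Measure (Lk ℤ d → S3)} (hν : Gib μ β (n + 1) ν) (hν' : Gib μ β (n + 1) ν')
    {B : Finset (Lk ℤ d)} (hB : ∀ y ∈ B, 1 ≤ T (y.1 o))
    {h h' : (Lk ℤ d → S3) → ℝ} (hh : BM h) (hh' : BM h') (hd : DepOn (lks d (n + 2)) h)
    (hd' : DepOn (lks d (n + 2)) h') {c : ℝ} (hc : 0 < c) (hp : ∀ V, c ≤ h V) (hp' : ∀ V, c ≤ h' V)
    (hx : ∀ x, x ∉ B → ∀ V g, h (update V x g) = h V)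
    (hx' : ∀ x, x ∉ B → ∀ V g, h' (update V x g) = h' V) :
    Est (lks d (n + 1)) (Eg o (n + 1) ν h) (Eg o (n + 1) ν' h')
      (fun y => wt o (fun z => 2 * T (z o) + 2 * Bf m' (n + 1) z) y) := by
  set κ : ℝ := kc * (2 * |β|) with hκ
  have hκ0 : 0 ≤ κ := mul_nonneg kc_nonneg (by positivity)
  set S := Sr o n B with hS
  have hSl : S ⊆ lks d n := Finset.filter_subset _ _
  have hSo : ∀ x ∈ S, x.2 ≠ o := fun x hx => (Finset.mem_filter.1 hx).2.1
  have hSB : ∀ x ∈ S, x ∉ B := fun x hx => (Finset.mem_filter.1 hx).2.2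
  have hd2 : ∀ x : Lk ℤ d, x.2 ≠ o → 0 ≤ (d : ℝ) - 2 := by
    intro x hx
    have h2 : Finset.card ({o, x.2} : Finset (Fin d)) ≤ Fintype.card (Fin d) :=
      Finset.card_le_univ _
    rw [Finset.card_pair (Ne.symm hx), Fintype.card_fin] at h2
    have : (2 : ℝ) ≤ d := by exact_mod_cast h2
    linarith
  -- the total weight
  have hrow : ∀ x ∈ S, ∑ y ∈ (lks d (n + 1)).erase x, kc * Cl β x y *
      wt o (fun z => 2 * T (z o) + 2 * Bf m' (n + 1) z) y ≤
        wt o (fun z => 2 * T (z o) + 2 * Bf m' (n + 1) z) x := by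
    intro x hx
    have hxo := hSo x hx
    have e1 : wt o (fun z => 2 * T (z o) + 2 * Bf m' (n + 1) z) x =
        2 * T (x.1 o) + 2 * Bf m' (n + 1) x.1 := by unfold wt; rw [if_neg hxo]
    have e2 : ∀ y : Lk ℤ d, wt o (fun z => 2 * T (z o) + 2 * Bf m' (n + 1) z) y =
        wt o (fun z => 2 * T (z o)) y + wt o (fun z => 2 * Bf m' (n + 1) z) y := by
      intro y; unfold wt; split_ifs <;> simp
    rw [e1]
    simp only [e2, mul_add, Finset.sum_add_distrib]
    refine add_le_add ?_ ?_
    · refine (row β _ (wt_nonneg o fun z => mul_nonneg zero_le_two (hT0 _)) x).trans ?_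
      have h3 := six_sum o (f := fun z => 2 * T (z o)) hxo (K := 2 * T (x.1 o))
        (K' := 2 * (T (x.1 o + 1) + T (x.1 o - 1)))
        (fun j hj w hw => by
          have h4 : w o = x.1 o := by
            rcases hw with rfl | rfl | rfl | rfl | rfl <;>
              simp [un, Ne.symm hj, Ne.symm hxo]
          rw [h4])
        (by simp [un]; linarith)
      refine (mul_le_mul_of_nonneg_left h3 hκ0).trans ?_
      have := hT (x.1 o)
      nlinarith
    · refine (row β _ (wt_nonneg o fun z => mul_nonneg zero_le_two (Bf_nonneg _ _ _)) x).trans ?_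
      have hnear : ∀ w : Fin d → ℤ, (∀ i, |w i - x.1 i| ≤ 1) →
          2 * Bf m' (n + 1) w ≤ 2 * (Real.exp m' * Bf m' (n + 1) x.1) := fun w hw =>
        mul_le_mul_of_nonneg_left (Bf_near hm'.le _ hw) zero_le_two
      have hun : ∀ i j : Fin d, (un ℤ j : Fin d → ℤ) i = if i = j then 1 else 0 := fun i j => by
        unfold un; rw [Pi.single_apply]
      have h3 := six_sum o (f := fun z => 2 * Bf m' (n + 1) z) hxo
        (K := 2 * (Real.exp m' * Bf m' (n + 1) x.1))
        (K' := 2 * (2 * (Real.exp m' * Bf m' (n + 1) x.1)))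
        (fun j hj w hw => hnear w fun i => by
          rcases hw with rfl | rfl | rfl | rfl | rfl <;>
            simp only [Pi.add_apply, Pi.sub_apply, hun, sub_self, add_sub_cancel_left,
              sub_sub_cancel_left, abs_neg, abs_zero, zero_le_one] <;> (try split_ifs) <;>
              (try simp))
        (by
          have a1 := hnear (x.1 + un ℤ o) fun i => by
            simp only [Pi.add_apply, hun, add_sub_cancel_left]; split_ifs <;> simp
          have a2 := hnear (x.1 - un ℤ o) fun i => by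
            simp only [Pi.sub_apply, hun, sub_sub_cancel_left, abs_neg]; split_ifs <;> simp
          linarith)
      refine (mul_le_mul_of_nonneg_left h3 hκ0).trans ?_
      have h5 : 0 ≤ Bf m' (n + 1) x.1 := Bf_nonneg _ _ _
      have h6 := mul_le_mul_of_nonneg_right h2 (mul_nonneg zero_le_two h5)
      rw [one_mul] at h6
      refine le_trans (le_of_eq ?_) h6
      ring
  set ρ : ℝ := κ * (6 * ((d : ℝ) - 2) + 2) with hρ
  by_cases hS0 : S.Nonempty
  · obtain ⟨x0, hx0⟩ := hS0
    have hdd := hd2 x0 (hSo x0 hx0)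
    have hρ0 : 0 ≤ ρ := mul_nonneg hκ0 (by linarith)
    have hρ1 : ρ < 1 := by
      have h3 : 1 < Real.exp m' := by
        have := Real.add_one_lt_exp hm'.ne'
        linarith
      have h4 : ρ * Real.exp m' ≤ 1 := by
        rw [hρ]
        calc _ = κ * ((6 * ((d : ℝ) - 2) + 2) * Real.exp m') := by ring
          _ ≤ 1 := h2
      by_contra hcon
      push Not at hcon
      nlinarith
    refine comp μ (fld_ok β n S hSl) (sta_ok o μ β n ν hν S hSl hSo h hh hd hc hp
      fun x hxS => hx x (hSB x hxS)) (sta_ok o μ β n ν' hν' S hSl hSo h' hh' hd' hc hp'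
      fun x hxS => hx' x (hSB x hxS)) (fun y _ => wt_nonneg o (fun z => add_nonneg
        (mul_nonneg zero_le_two (hT0 _)) (mul_nonneg zero_le_two (Bf_nonneg _ _ _))) y)
      ?_ hρ0 hρ1 hrow ?_
    · intro V hV V' hV' y hy hyS
      by_cases hyo : y.2 = o
      · rw [hV y hy hyo, hV' y hy hyo]
        unfold wt
        rw [if_pos hyo]
        exact le_of_eq (chord_cost.self _)
      · unfold wt
        rw [if_neg hyo]
        refine (chord_cost.le _ _).trans ?_
        by_cases hyn : y ∈ lks d n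
        · have hyB : y ∈ B := by
            by_contra hcon
            exact hyS (Finset.mem_filter.2 ⟨hyn, hyo, hcon⟩)
          have := hB y hyB
          have := Bf_nonneg m' (n + 1) y.1
          linarith
        · rw [mem_lks] at hyn hy
          push Not at hyn
          obtain ⟨i, hi⟩ := hyn
          have h3 := hy i
          push_cast at h3
          have h4 : y.1 i = ((n + 1 : ℕ) : ℤ) ∨ y.1 i = -((n + 1 : ℕ) : ℤ) := by
            push_cast
            by_cases h5 : -(n : ℤ) ≤ y.1 i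
            · have := hi h5
              omega
            · omega
          have := Bf_bdry m' (n + 1) h4
          have := hT0 (y.1 o)
          linarith
    · intro x hxS
      have hxo := hSo x hxS
      have h3 : ∑ y ∈ S.erase x, kc * Cl β x y = ∑ y ∈ S.erase x, kc * Cl β x y *
          wt o (fun _ => 1) y := by
        refine Finset.sum_congr rfl fun y hy => ?_
        unfold wt
        rw [if_neg (hSo y (Finset.mem_of_mem_erase hy)), mul_one]
      rw [h3]
      refine (row β _ (wt_nonneg o fun z => zero_le_one) x).trans ?_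
      refine mul_le_mul_of_nonneg_left ?_ hκ0
      have h4 := six_sum o (f := fun _ => 1) hxo (K := 1) (K' := 2) (fun _ _ _ _ => le_rfl)
        (by norm_num)
      linarith
  · -- no link at all
    rw [Finset.not_nonempty_iff_eq_empty] at hS0
    have k1 := sta_ok o μ β n ν hν S hSl hSo h hh hd hc hp fun x hxS => hx x (hSB x hxS)
    have k2 := sta_ok o μ β n ν' hν' S hSl hSo h' hh' hd' hc hp' fun x hxS => hx' x (hSB x hxS)
    have k3 := fld_ok (d := d) β n S hSl
    refine comp μ k3 k1 k2 (fun y _ => wt_nonneg o (fun z => add_nonneg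
        (mul_nonneg zero_le_two (hT0 _)) (mul_nonneg zero_le_two (Bf_nonneg _ _ _))) y)
      ?_ le_rfl one_pos hrow (fun x hxS => absurd hxS (by rw [hS0]; simp))
    intro V hV V' hV' y hy hyS
    by_cases hyo : y.2 = o
    · rw [hV y hy hyo, hV' y hy hyo]
      unfold wt
      rw [if_pos hyo]
      exact le_of_eq (chord_cost.self _)
    · unfold wt
      rw [if_neg hyo]
      refine (chord_cost.le _ _).trans ?_
      by_cases hyn : y ∈ lks d n
      · have hyB : y ∈ B := by
          by_contra hcon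
          exact hyS (Finset.mem_filter.2 ⟨hyn, hyo, hcon⟩)
        have := hB y hyB
        have := Bf_nonneg m' (n + 1) y.1
        linarith
      · rw [mem_lks] at hyn hy
        push Not at hyn
        obtain ⟨i, hi⟩ := hyn
        have h3 := hy i
        push_cast at h3
        have h4 : y.1 i = ((n + 1 : ℕ) : ℤ) ∨ y.1 i = -((n + 1 : ℕ) : ℤ) := by
          push_cast
          by_cases h5 : -(n : ℤ) ≤ y.1 i
          · have := hi h5
            omega
          · omega
        have := Bf_bdry m' (n + 1) h4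
        have := hT0 (y.1 o)
        linarith

end

end Pool.Agent.Q234.SC
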