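import Pool.Agent.Q234.SC.Tor2

/-!
# Reflection positivity on the periodic lattices of even side
-/

namespace Pool.Agent.Q234.SC

open MeasureTheory Quaternion Function Pool.Agent.H556R4.Dob Pool.Agent.H556R4.SU2 Filter
open scoped Topology ENNReal

set_option linter.unusedSectionVars false
set_option autoImplicit false

section abs

variable {ι G : Type} [Fintype ι] [DecidableEq ι] [MeasurableSpace G] (μ : Measure G)
  [IsProbabilityMeasure μ]

lemma meas_merge (P : Finset ι) : Measurable fun p : (ι → G) × (ι → G) => merge P p.1 p.2 := by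
  refine measurable_pi_lambda _ fun i => ?_
  unfold merge
  by_cases h : i ∈ P
  · simp only [h, if_true]
    exact (measurable_pi_apply i).comp measurable_fst
  · simp only [h, if_false]
    exact (measurable_pi_apply i).comp measurable_snd

/-- resampling the coordinates in `P` preserves the product measure -/
lemma mp_merge (P : Finset ι) : MeasurePreserving (fun p : (ι → G) × (ι → G) => merge P p.1 p.2)
    ((Pm μ : Measure (ι → G)).prod (Pm μ)) (Pm μ) := by
  refine ⟨meas_merge P, ?_⟩
  refine (Measure.pi_eq fun s hs => ?_).symm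
  rw [Measure.map_apply (meas_merge P) (MeasurableSet.univ_pi hs)]
  have h : (fun p : (ι → G) × (ι → G) => merge P p.1 p.2) ⁻¹' (Set.univ.pi s) =
      (Set.univ.pi fun i => if i ∈ P then s i else Set.univ) ×ˢ
        (Set.univ.pi fun i => if i ∈ P then Set.univ else s i) := by
    ext p
    simp only [Set.mem_preimage, Set.mem_pi, Set.mem_univ, true_implies, Set.mem_prod, merge]
    constructor
    · intro hp
      refine ⟨fun i => ?_, fun i => ?_⟩
      · by_cases hi : i ∈ P
        · simpa [hi] using hp i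
        · simp [hi]
      · by_cases hi : i ∈ P
        · simp [hi]
        · simpa [hi] using hp i
    · rintro ⟨h1, h2⟩ i
      by_cases hi : i ∈ P
      · simpa [hi] using h1 i
      · simpa [hi] using h2 i
  rw [h, Measure.prod_prod, Measure.pi_pi, Measure.pi_pi, ← Finset.prod_mul_distrib]
  refine Finset.prod_congr rfl fun i _ => ?_
  by_cases hi : i ∈ P <;> simp [hi]

lemma int_merge (P : Finset ι) {Φ : (ι → G) → ℝ} (hΦ : BM Φ) :
    ∫ U, Φ U ∂(Pm μ) = ∫ U, ∫ U', Φ (merge P U' U) ∂(Pm μ) ∂(Pm μ : Measure (ι → G)) := by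
  have h := mp_merge μ P
  conv_lhs => rw [← h.map_eq]
  rw [integral_map h.measurable.aemeasurable hΦ.meas.aestronglyMeasurable]
  rw [integral_prod_symm _ ((hΦ.comp h.measurable).integrable _)]

/-- abstract reflection positivity -/
theorem rp_abs {P M : Finset ι} (hPM : Disjoint P M) {θ : (ι → G) → ι → G}
    (hθ : MeasurePreserving θ (Pm μ : Measure (ι → G)) (Pm μ))
    (h1 : ∀ U U' : ι → G, (∀ x ∈ M, U x = U' x) → ∀ x ∈ P, θ U x = θ U' x)
    (h2 : ∀ U, ∀ x, x ∉ P → x ∉ M → θ U x = U x) {Φ W : (ι → G) → ℝ} (hΦ : BM Φ) (hW : BM W)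
    (hW0 : ∀ U, 0 ≤ W U) (dΦ : ∀ U U' : ι → G, (∀ x, x ∉ M → U x = U' x) → Φ U = Φ U')
    (dW : ∀ U U' : ι → G, (∀ x, x ∉ P → x ∉ M → U x = U' x) → W U = W U') :
    0 ≤ ∫ U, Φ (θ U) * Φ U * W U ∂(Pm μ : Measure (ι → G)) := by
  have hPM' : ∀ x ∈ P, x ∉ M := fun x hx hx' => Finset.disjoint_left.1 hPM hx hx'
  set K : (ι → G) → ℝ := fun U => ∫ U', Φ (merge P U' U) ∂(Pm μ : Measure (ι → G)) with hK
  have hKm : BM K := by
    refine ⟨?_, ?_⟩
    · have h3 : Measurable fun p : (ι → G) × (ι → G) => Φ (merge P p.2 p.1) :=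
        hΦ.meas.comp ((meas_merge P).comp measurable_swap)
      exact (h3.stronglyMeasurable.integral_prod_right (ν := (Pm μ : Measure (ι → G)))).measurable
    · obtain ⟨c, hc⟩ := hΦ.bdd
      refine ⟨c, fun U => ?_⟩
      have := norm_integral_le_of_norm_le (μ := (Pm μ : Measure (ι → G))) (integrable_const c)
        (f := fun U' => Φ (merge P U' U)) (Eventually.of_forall fun U' => hc _)
      simpa using this
  have dK : ∀ U U' : ι → G, (∀ x, x ∉ P → x ∉ M → U x = U' x) → K U = K U' := by
    intro U U' h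
    simp only [hK]
    refine integral_congr_ae (Eventually.of_forall fun V => ?_)
    refine dΦ _ _ fun x hx => ?_
    unfold merge
    split_ifs with hxP
    · rfl
    · exact h x hxP hx
  have hΦθ : BM fun U => Φ (θ U) := hΦ.comp hθ.measurable
  have s1 : ∫ U, Φ (θ U) * Φ U * W U ∂(Pm μ : Measure (ι → G)) =
      ∫ U, Φ (θ U) * K U * W U ∂(Pm μ : Measure (ι → G)) := by
    rw [int_merge μ P ((hΦθ.mul hΦ).mul hW)]
    refine integral_congr_ae (Eventually.of_forall fun U => ?_)
    simp only [hK]
    rw [← integral_const_mul, ← integral_mul_const]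
    refine integral_congr_ae (Eventually.of_forall fun U' => ?_)
    simp only
    have e1 : Φ (θ (merge P U' U)) = Φ (θ U) := by
      refine dΦ _ _ fun x hx => ?_
      by_cases hxP : x ∈ P
      · refine h1 _ _ (fun y hy => ?_) x hxP
        have : y ∉ P := fun h => hPM' y h hy
        simp [merge, this]
      · rw [h2 _ x hxP hx, h2 _ x hxP hx]
        simp [merge, hxP]
    have e2 : W (merge P U' U) = W U := dW _ _ fun x hx _ => by simp [merge, hx]
    rw [e1, e2]
  have s2 : ∫ U, Φ (θ U) * K U * W U ∂(Pm μ : Measure (ι → G)) =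
      ∫ U, K U * K U * W U ∂(Pm μ : Measure (ι → G)) := by
    rw [int_merge μ M ((hΦθ.mul hKm).mul hW)]
    refine integral_congr_ae (Eventually.of_forall fun U => ?_)
    simp only
    have e1 : ∀ U', K (merge M U' U) = K U := fun U' => dK _ _ fun x _ hx => by simp [merge, hx]
    have e2 : ∀ U', W (merge M U' U) = W U := fun U' => dW _ _ fun x _ hx => by simp [merge, hx]
    have e3 : ∀ U', Φ (θ (merge M U' U)) = Φ (merge P (θ U') (θ U)) := by
      intro U'
      refine dΦ _ _ fun x hx => ?_
      by_cases hxP : x ∈ P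
      · have : θ (merge M U' U) x = θ U' x := h1 _ _ (fun y hy => by simp [merge, hy]) x hxP
        rw [this]
        simp [merge, hxP]
      · rw [h2 _ x hxP hx]
        simp only [merge, hxP, hx, if_false]
        rw [h2 _ x hxP hx]
    simp only [e1, e2, e3]
    rw [integral_mul_const, integral_mul_const]
    congr 2
    have e4 : ∫ U', Φ (merge P (θ U') (θ U)) ∂(Pm μ : Measure (ι → G)) =
        ∫ U', Φ (merge P U' (θ U)) ∂(Pm μ : Measure (ι → G)) := by
      have hm : BM fun U' : ι → G => Φ (merge P U' (θ U)) :=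
        hΦ.comp ((meas_merge P).comp (measurable_id.prodMk measurable_const))
      have := integral_map (μ := (Pm μ : Measure (ι → G))) hθ.measurable.aemeasurable
        (f := fun U' : ι → G => Φ (merge P U' (θ U))) hm.meas.aestronglyMeasurable
      rw [hθ.map_eq] at this
      exact this.symm
    rw [e4]
    exact dK _ _ fun x hx hx' => h2 U x hx hx'
  rw [s1, s2]
  exact integral_nonneg fun U => mul_nonneg (mul_self_nonneg _) (hW0 U)

end abs

section geo

variable {R : Type} [AddCommGroup R] [One R] {d : ℕ}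

/-- reflection of the points in the hyperplane `x i = 0` -/
def flip (i : Fin d) (x : Fin d → R) : Fin d → R := update x i (-(x i))

/-- the base point of the reflected link -/
def rl (i : Fin d) (e : Lk R d) : Lk R d :=
  (if e.2 = i then flip i e.1 - un R i else flip i e.1, e.2)

/-- reflection of the configurations -/
noncomputable def refl (i : Fin d) (V : Lk R d → S3) : Lk R d → S3 :=
  fun e => if e.2 = i then (V (rl i e))⁻¹ else V (rl i e)

lemma flip_flip (i : Fin d) (x : Fin d → R) : flip i (flip i x) = x := by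
  unfold flip; simp

lemma flip_add_ne {i j : Fin d} (h : j ≠ i) (x : Fin d → R) :
    flip i (x + un R j) = flip i x + un R j := by
  funext k
  unfold flip un
  by_cases hk : k = i
  · subst hk; simp [Pi.single_eq_of_ne h.symm]
  · simp [update_of_ne hk]

lemma flip_add (i : Fin d) (x : Fin d → R) : flip i (x + un R i) = flip i x - un R i := by
  funext k
  unfold flip un
  by_cases hk : k = i
  · subst hk; simp; abel
  · simp [update_of_ne hk, Pi.single_eq_of_ne hk]

lemma flip_sub (i : Fin d) (x : Fin d → R) : flip i (x - un R i) = flip i x + un R i := by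
  funext k
  unfold flip un
  by_cases hk : k = i
  · subst hk; simp; abel
  · simp [update_of_ne hk, Pi.single_eq_of_ne hk]

lemma rl_rl (i : Fin d) (e : Lk R d) : rl i (rl i e) = e := by
  unfold rl
  by_cases h : e.2 = i
  · simp only [h, if_true]
    rw [flip_sub, flip_flip, add_sub_cancel_right]
    exact Prod.ext rfl h.symm
  · simp only [h, if_false]
    rw [flip_flip]

/-- plaquettes parallel to the hyperplane -/
lemma plq_refl_par {i j k : Fin d} (hj : j ≠ i) (hk : k ≠ i) (V : Lk R d → S3) (x : Fin d → R) :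
    plq (refl i V) x j k = plq V (flip i x) j k := by
  unfold plq refl rl
  simp only [hj, hk, if_false, flip_add_ne hj, flip_add_ne hk]

/-- plaquettes orthogonal to the hyperplane -/
lemma plq_refl_left {i k : Fin d} (hk : k ≠ i) (V : Lk R d → S3) (x : Fin d → R) :
    (plq (refl i V) x i k : ℍ[ℝ]).re = (plq V (flip i x - un R i) i k : ℍ[ℝ]).re := by
  unfold plq refl rl
  simp only [hk, if_false, if_true, flip_add_ne hk, flip_add, sub_add_cancel]
  rw [← Quaternion.re_star, ← coe_inv]
  rw [show flip i x + un R k - un R i = flip i x - un R i + un R k by abel]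
  set A := V (flip i x - un R i, i)
  set B := V (flip i x, k)
  set C := V (flip i x - un R i + un R k, i)
  set D := V (flip i x - un R i, k)
  have e1 : (A⁻¹ * D * C⁻¹⁻¹ * B⁻¹)⁻¹ = B * C⁻¹ * D⁻¹ * A := by group
  have e2 : A * B * C⁻¹ * D⁻¹ = A * (B * C⁻¹ * D⁻¹) := by group
  rw [e1, e2, Metric.unitSphere.coe_mul (B * C⁻¹ * D⁻¹) A,
    Metric.unitSphere.coe_mul A (B * C⁻¹ * D⁻¹), re_cyc]

lemma plq_refl_right {i j : Fin d} (hj : j ≠ i) (V : Lk R d → S3) (x : Fin d → R) :
    (plq (refl i V) x j i : ℍ[ℝ]).re = (plq V (flip i x - un R i) j i : ℍ[ℝ]).re := by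
  have h : ∀ (W : Lk R d → S3) (y : Fin d → R) (a b : Fin d),
      (plq W y a b : ℍ[ℝ]).re = (plq W y b a : ℍ[ℝ]).re := by
    intro W y a b
    have e : plq W y a b = (plq W y b a)⁻¹ := by unfold plq; group
    rw [e, coe_inv, Quaternion.re_star]
  rw [h, plq_refl_left hj, h]

end geo

end Pool.Agent.Q234.SC
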