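import Pool.Agent.Q234.SC.Rp

/-!
# Reflection positivity of the theories on the periodic lattices of even side
-/

namespace Pool.Agent.Q234.SC

open MeasureTheory Quaternion Function Pool.Agent.H556R4.Dob Pool.Agent.H556R4.SU2 Filter
open scoped Topology ENNReal

set_option linter.unusedSectionVars false
set_option autoImplicit false

section

variable {d l h : ℕ} [NeZero l] (i : Fin d)

lemma val_neg_sub_one (a : ZMod l) : (-a - 1).val = l - 1 - a.val := by
  have ha := ZMod.val_lt a
  have h1 : (-a - 1 : ZMod l) = ((l - 1 - a.val : ℕ) : ZMod l) := by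
    rw [Nat.sub_sub, Nat.cast_sub (by omega)]
    push_cast
    rw [ZMod.natCast_self, ZMod.natCast_val, ZMod.cast_id]
    ring
  rw [h1, ZMod.val_natCast_of_lt (by omega)]

lemma val_add_one' {a : ZMod l} (ha : a.val + 1 < l) : (a + 1).val = a.val + 1 := by
  have h1 : (a + 1 : ZMod l) = ((a.val + 1 : ℕ) : ZMod l) := by
    push_cast
    rw [ZMod.natCast_val, ZMod.cast_id]
  rw [h1, ZMod.val_natCast_of_lt ha]

lemma val_neg' (a : ZMod l) : (-a).val = if a.val = 0 then 0 else l - a.val := by
  rw [ZMod.neg_val]
  have : a = 0 ↔ a.val = 0 := (ZMod.val_eq_zero a).symm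
  simp only [this]

/-- upper plaquettes -/
def upP (h : ℕ) (x : Fin d → ZMod l) (j k : Fin d) : Prop :=
  if j = i ∨ k = i then (x i).val < h else 0 < (x i).val ∧ (x i).val < h

/-- lower plaquettes -/
def loP (h : ℕ) (x : Fin d → ZMod l) (j k : Fin d) : Prop :=
  if j = i ∨ k = i then h ≤ (x i).val else h < (x i).val

/-- plaquettes in the reflecting hyperplanes -/
def miP (h : ℕ) (x : Fin d → ZMod l) (j k : Fin d) : Prop :=
  ¬ (j = i ∨ k = i) ∧ ((x i).val = 0 ∨ (x i).val = h)

open Classical in
/-- the part of the action of the upper plaquettes -/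
noncomputable def Ap (h : ℕ) (U : Lk (ZMod l) d → S3) : ℝ :=
  ∑ j : Fin d, ∑ k : Fin d, ∑ x : Fin d → ZMod l,
    if j < k ∧ upP i h x j k then 2 * (plq U x j k : ℍ[ℝ]).re else 0

open Classical in
/-- the part of the action in the hyperplanes -/
noncomputable def A0 (h : ℕ) (U : Lk (ZMod l) d → S3) : ℝ :=
  ∑ j : Fin d, ∑ k : Fin d, ∑ x : Fin d → ZMod l,
    if j < k ∧ miP i h x j k then 2 * (plq U x j k : ℍ[ℝ]).re else 0

/-- the reflection of base points of plaquettes -/
def sg (j k : Fin d) (x : Fin d → ZMod l) : Fin d → ZMod l :=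
  if j = i ∨ k = i then flip i x - un (ZMod l) i else flip i x

lemma sg_sg (j k : Fin d) (x : Fin d → ZMod l) : sg i j k (sg i j k x) = x := by
  unfold sg
  split_ifs
  · rw [flip_sub, flip_flip, add_sub_cancel_right]
  · rw [flip_flip]

lemma up_sg (hl : l = 2 * h) (j k : Fin d) (x : Fin d → ZMod l) :
    upP i h (sg i j k x) j k ↔ loP i h x j k := by
  unfold upP loP sg
  have hx := ZMod.val_lt (x i)
  split_ifs with hjk
  · have h1 : ((flip i x - un (ZMod l) i) i).val = l - 1 - (x i).val := by
      rw [← val_neg_sub_one]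
      congr 1
      simp [flip, un]
    rw [h1]
    omega
  · have h1 : (flip i x i).val = if (x i).val = 0 then 0 else l - (x i).val := by
      rw [← val_neg']
      congr 1
      simp [flip]
    rw [h1]
    split_ifs <;> omega

lemma act_split (hl : l = 2 * h) (U : Lk (ZMod l) d → S3) :
    act U = Ap i h (refl i U) + Ap i h U + A0 i h U := by
  classical
  have e1 : Ap i h (refl i U) = ∑ j : Fin d, ∑ k : Fin d, ∑ x : Fin d → ZMod l,
      if j < k ∧ loP i h x j k then 2 * (plq U x j k : ℍ[ℝ]).re else 0 := by
    unfold Ap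
    refine Finset.sum_congr rfl fun j _ => Finset.sum_congr rfl fun k _ => ?_
    have hinv : Function.Involutive (sg (l := l) i j k) := sg_sg i j k
    rw [← Equiv.sum_comp hinv.toPerm]
    refine Finset.sum_congr rfl fun x _ => ?_
    rw [Function.Involutive.coe_toPerm, up_sg i hl]
    by_cases hjk : j < k
    swap
    · simp [hjk]
    have e2 : (plq (refl i U) (sg i j k x) j k : ℍ[ℝ]).re = (plq U x j k : ℍ[ℝ]).re := by
      have h3 := sg_sg i j k x
      rcases eq_or_ne j i with hj | hj
      · subst hj
        rw [plq_refl_left (ne_of_gt hjk)]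
        have : sg j j k x = flip j x - un (ZMod l) j := by unfold sg; simp
        rw [this, flip_sub, flip_flip, add_sub_cancel_right]
      · rcases eq_or_ne k i with hk | hk
        · subst hk
          rw [plq_refl_right hj]
          have : sg k j k x = flip k x - un (ZMod l) k := by unfold sg; simp
          rw [this, flip_sub, flip_flip, add_sub_cancel_right]
        · rw [plq_refl_par hj hk]
          have : sg i j k x = flip i x := by unfold sg; simp [hj, hk]
          rw [this, flip_flip]
    rw [e2]
  rw [e1]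
  unfold act Ap A0
  have e3 : ∑ x : Fin d → ZMod l, ∑ j : Fin d, ∑ k : Fin d,
      (if j < k then 2 * (plq U x j k : ℍ[ℝ]).re else 0) = ∑ j : Fin d, ∑ k : Fin d,
      ∑ x : Fin d → ZMod l, (if j < k then 2 * (plq U x j k : ℍ[ℝ]).re else 0) := by
    rw [Finset.sum_comm]
    exact Finset.sum_congr rfl fun j _ => Finset.sum_comm
  rw [e3, ← Finset.sum_add_distrib, ← Finset.sum_add_distrib]
  refine Finset.sum_congr rfl fun j _ => ?_
  rw [← Finset.sum_add_distrib, ← Finset.sum_add_distrib]
  refine Finset.sum_congr rfl fun k _ => ?_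
  rw [← Finset.sum_add_distrib, ← Finset.sum_add_distrib]
  refine Finset.sum_congr rfl fun x _ => ?_
  have hx := ZMod.val_lt (x i)
  unfold loP upP miP
  by_cases hjk : j < k
  swap
  · simp [hjk]
  by_cases hi : j = i ∨ k = i
  · simp only [hjk, hi, if_true, true_and, not_true, false_and, if_false, add_zero]
    by_cases hv : (x i).val < h
    · simp [hv, hv.not_ge]
    · simp [hv, not_lt.1 hv]
  · simp only [hjk, hi, if_true, true_and, not_false_eq_true, if_false]
    by_cases hv : h < (x i).val
    · have c1 : ¬ (0 < (x i).val ∧ (x i).val < h) := by omega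
      have c2 : ¬ ((x i).val = 0 ∨ (x i).val = h) := by omega
      simp only [hv, c1, c2, if_true, if_false]
      ring
    · by_cases hv2 : 0 < (x i).val ∧ (x i).val < h
      · have c2 : ¬ ((x i).val = 0 ∨ (x i).val = h) := by omega
        simp only [hv, hv2, c2, if_true, if_false, and_self]
        ring
      · have c2 : (x i).val = 0 ∨ (x i).val = h := by omega
        simp only [hv, hv2, c2, if_true, if_false]
        ring

/-- upper links -/
noncomputable def PP (l h : ℕ) [NeZero l] (i : Fin d) : Finset (Lk (ZMod l) d) :=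
  Finset.univ.filter fun e => if e.2 = i then (e.1 i).val < h else
    0 < (e.1 i).val ∧ (e.1 i).val < h

/-- lower links -/
noncomputable def MM (l h : ℕ) [NeZero l] (i : Fin d) : Finset (Lk (ZMod l) d) :=
  Finset.univ.filter fun e => if e.2 = i then h ≤ (e.1 i).val else h < (e.1 i).val

lemma mem_PP {e : Lk (ZMod l) d} : e ∈ PP l h i ↔ if e.2 = i then (e.1 i).val < h else
    0 < (e.1 i).val ∧ (e.1 i).val < h := by simp [PP]

lemma mem_MM {e : Lk (ZMod l) d} : e ∈ MM l h i ↔ if e.2 = i then h ≤ (e.1 i).val else
    h < (e.1 i).val := by simp [MM]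

lemma disj : Disjoint (PP l h i) (MM l h i) := by
  rw [Finset.disjoint_left]
  intro e h1 h2
  rw [mem_PP] at h1
  rw [mem_MM] at h2
  split_ifs at h1 h2 <;> omega

lemma rl_mem (hl : l = 2 * h) {e : Lk (ZMod l) d} (he : e ∈ PP l h i) : rl i e ∈ MM l h i := by
  rw [mem_PP] at he
  rw [mem_MM]
  have hx := ZMod.val_lt (e.1 i)
  unfold rl
  by_cases hi : e.2 = i
  · simp only [hi, if_true] at he ⊢
    have h1 : ((flip i e.1 - un (ZMod l) i) i).val = l - 1 - (e.1 i).val := by
      rw [← val_neg_sub_one]
      congr 1
      simp [flip, un]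
    rw [h1]
    omega
  · simp only [hi, if_false] at he ⊢
    have h1 : (flip i e.1 i).val = if (e.1 i).val = 0 then 0 else l - (e.1 i).val := by
      rw [← val_neg']
      congr 1
      simp [flip]
    rw [h1]
    split_ifs <;> omega

lemma rl_fix (hl : l = 2 * h) {e : Lk (ZMod l) d} (h1 : e ∉ PP l h i) (h2 : e ∉ MM l h i) :
    e.2 ≠ i ∧ rl i e = e := by
  rw [mem_PP] at h1
  rw [mem_MM] at h2
  have hx := ZMod.val_lt (e.1 i)
  by_cases hi : e.2 = i
  · simp only [hi, if_true] at h1 h2
    omega
  · refine ⟨hi, ?_⟩
    simp only [hi, if_false] at h1 h2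
    unfold rl
    simp only [hi, if_false]
    refine Prod.ext ?_ rfl
    show flip i e.1 = e.1
    unfold flip
    have h3 : -(e.1 i) = e.1 i := by
      apply ZMod.val_injective
      rw [val_neg']
      split_ifs <;> omega
    rw [h3, update_eq_self]

lemma Ap_dep (hl : l = 2 * h) (U U' : Lk (ZMod l) d → S3) (hU : ∀ e, e ∉ MM l h i → U e = U' e) :
    Ap i h U = Ap i h U' := by
  classical
  unfold Ap
  refine Finset.sum_congr rfl fun j _ => Finset.sum_congr rfl fun k _ =>
    Finset.sum_congr rfl fun x _ => ?_
  by_cases hc : j < k ∧ upP i h x j k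
  swap
  · rw [if_neg hc, if_neg hc]
  rw [if_pos hc, if_pos hc]
  obtain ⟨hjk, hup⟩ := hc
  have hx := ZMod.val_lt (x i)
  have hun : ∀ a : Fin d, a ≠ i → (x + un (ZMod l) a) i = x i := fun a ha => by
    simp [un, Pi.single_eq_of_ne ha.symm]
  have hun' : (x i).val < h → ((x + un (ZMod l) i) i).val = (x i).val + 1 := fun hv => by
    have h1 : (x + un (ZMod l) i) i = x i + 1 := by simp [un]
    rw [h1, val_add_one' (by omega)]
  unfold upP at hup
  have key : ∀ e : Lk (ZMod l) d, (e = (x, j) ∨ e = (x + un (ZMod l) j, k) ∨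
      e = (x + un (ZMod l) k, j) ∨ e = (x, k)) → e ∉ MM l h i := by
    intro e he
    rw [mem_MM]
    rcases eq_or_ne j i with hj | hj
    · subst hj
      have hki : k ≠ j := ne_of_gt hjk
      simp only [true_or, if_true] at hup
      rcases he with rfl | rfl | rfl | rfl
      · simp only [if_true]; omega
      · simp only [hki, if_false]; rw [hun' hup]; omega
      · simp only [if_true]; rw [hun k hki]; omega
      · simp only [hki, if_false]; omega
    · rcases eq_or_ne k i with hk | hk
      · subst hk
        simp only [or_true, if_true] at hup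
        rcases he with rfl | rfl | rfl | rfl
        · simp only [hj, if_false]; omega
        · simp only [if_true]; rw [hun j hj]; omega
        · simp only [hj, if_false]; rw [hun' hup]; omega
        · simp only [if_true]; omega
      · simp only [hj, hk, or_self, if_false] at hup
        rcases he with rfl | rfl | rfl | rfl
        · simp only [hj, if_false]; omega
        · simp only [hk, if_false]; rw [hun j hj]; omega
        · simp only [hj, if_false]; rw [hun k hk]; omega
        · simp only [hk, if_false]; omega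
  unfold plq
  rw [hU _ (key _ (Or.inl rfl)), hU _ (key _ (Or.inr (Or.inl rfl))),
    hU _ (key _ (Or.inr (Or.inr (Or.inl rfl)))), hU _ (key _ (Or.inr (Or.inr (Or.inr rfl))))]

lemma A0_dep (hl : l = 2 * h) (U U' : Lk (ZMod l) d → S3)
    (hU : ∀ e, e ∉ PP l h i → e ∉ MM l h i → U e = U' e) : A0 i h U = A0 i h U' := by
  classical
  unfold A0
  refine Finset.sum_congr rfl fun j _ => Finset.sum_congr rfl fun k _ =>
    Finset.sum_congr rfl fun x _ => ?_
  by_cases hc : j < k ∧ miP i h x j k
  swap
  · rw [if_neg hc, if_neg hc]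
  rw [if_pos hc, if_pos hc]
  obtain ⟨hjk, hmi⟩ := hc
  unfold miP at hmi
  rw [not_or] at hmi
  obtain ⟨⟨hj, hk⟩, hv⟩ := hmi
  have hun : ∀ a : Fin d, a ≠ i → (x + un (ZMod l) a) i = x i := fun a ha => by
    simp [un, Pi.single_eq_of_ne ha.symm]
  have key : ∀ e : Lk (ZMod l) d, (e = (x, j) ∨ e = (x + un (ZMod l) j, k) ∨
      e = (x + un (ZMod l) k, j) ∨ e = (x, k)) → U e = U' e := by
    intro e he
    refine hU e ?_ ?_
    · rw [mem_PP]
      rcases he with rfl | rfl | rfl | rfl
      · simp only [hj, if_false]; omega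
      · simp only [hk, if_false]; rw [hun j hj]; omega
      · simp only [hj, if_false]; rw [hun k hk]; omega
      · simp only [hk, if_false]; omega
    · rw [mem_MM]
      rcases he with rfl | rfl | rfl | rfl
      · simp only [hj, if_false]; omega
      · simp only [hk, if_false]; rw [hun j hj]; omega
      · simp only [hj, if_false]; rw [hun k hk]; omega
      · simp only [hk, if_false]; omega
  unfold plq
  rw [key _ (Or.inl rfl), key _ (Or.inr (Or.inl rfl)), key _ (Or.inr (Or.inr (Or.inl rfl))),
    key _ (Or.inr (Or.inr (Or.inr rfl)))]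

lemma per_refl (U : Lk (ZMod l) d → S3) : per (refl i U) = refl i (per U) := by
  funext e
  have h1 : red l (rl i e) = rl i (red l e) := by
    unfold red rl
    refine Prod.ext ?_ rfl
    funext k
    simp only
    by_cases hi : e.2 = i
    · simp only [hi, if_true, Pi.sub_apply, flip, un]
      by_cases hk : k = i
      · subst hk; simp
      · simp [update_of_ne hk, Pi.single_eq_of_ne hk]
    · simp only [hi, if_false, flip]
      by_cases hk : k = i
      · subst hk; simp
      · simp [update_of_ne hk]
  show refl i U (red l e) = refl i (per U) e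
  unfold refl
  rw [per_apply, h1]
  rfl

end

section

variable {d l h : ℕ} [NeZero l] (i : Fin d) [MeasurableSpace S3] [BorelSpace S3]
  (μ : Measure S3) [IsProbabilityMeasure μ] [μ.IsMulLeftInvariant] [μ.IsMulRightInvariant]
  [μ.IsInvInvariant]

lemma cont_refl {R : Type} [AddCommGroup R] [One R] :
    Continuous (refl i : (Lk R d → S3) → Lk R d → S3) := by
  refine continuous_pi fun e => ?_
  unfold refl
  split_ifs
  · exact (continuous_apply _).inv
  · exact continuous_apply _

/-- a permutation of the coordinates preserves the product measure -/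
lemma mp_perm {ι : Type} [Fintype ι] (ρ : Equiv.Perm ι) :
    MeasurePreserving (fun U : ι → S3 => fun e => U (ρ e)) (Pm μ) (Pm μ : Measure (ι → S3)) := by
  have hm : Measurable fun U : ι → S3 => fun e => U (ρ e) :=
    measurable_pi_lambda _ fun e => measurable_pi_apply _
  refine ⟨hm, ?_⟩
  refine (Measure.pi_eq fun s hs => ?_).symm
  rw [Measure.map_apply hm (MeasurableSet.univ_pi hs)]
  have h : (fun U : ι → S3 => fun e => U (ρ e)) ⁻¹' (Set.univ.pi s) =
      Set.univ.pi fun e => s (ρ.symm e) := by
    ext U
    simp only [Set.mem_preimage, Set.mem_pi, Set.mem_univ, true_implies]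
    constructor
    · intro hU e
      have := hU (ρ.symm e)
      rwa [Equiv.apply_symm_apply] at this
    · intro hU e
      have := hU (ρ e)
      rwa [Equiv.symm_apply_apply] at this
  rw [h, Measure.pi_pi]
  exact Equiv.prod_comp ρ.symm fun e => μ (s e)

lemma mp_refl : MeasurePreserving (refl i : (Lk (ZMod l) d → S3) → Lk (ZMod l) d → S3)
    (Pm μ : Measure (Lk (ZMod l) d → S3)) (Pm μ : Measure (Lk (ZMod l) d → S3)) := by
  have hinv : Function.Involutive (rl i : Lk (ZMod l) d → Lk (ZMod l) d) := rl_rl i
  have h1 := mp_perm μ hinv.toPerm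
  have h2 : MeasurePreserving (fun (a : Lk (ZMod l) d → S3) (e : Lk (ZMod l) d) =>
      (fun (g : S3) => if e.2 = i then g⁻¹ else g) (a e)) (Pm μ : Measure (Lk (ZMod l) d → S3))
      (Pm μ : Measure (Lk (ZMod l) d → S3)) := by
    refine measurePreserving_pi (fun _ : Lk (ZMod l) d => μ) (fun _ : Lk (ZMod l) d => μ)
      (f := fun (e : Lk (ZMod l) d) (g : S3) => if e.2 = i then g⁻¹ else g) fun e => ?_
    by_cases he : e.2 = i
    · simp only [he, if_true]
      exact Measure.measurePreserving_inv μ
    · simp only [he, if_false]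
      exact MeasurePreserving.id μ
  exact h2.comp h1

/-- **Reflection positivity.** -/
theorem rp_torus (hl : l = 2 * h) (β : ℝ) {B : Finset (Lk ℤ d)}
    (hB : ∀ e ∈ B, 0 ≤ e.1 i ∧ e.1 i < h) {F : (Lk ℤ d → S3) → ℝ} (hF : BM F) (hFd : DepOn B F) :
    0 ≤ ∫ V, F (refl i V) * F V ∂(nuT μ d l β) := by
  have hm : BM fun V => F (refl i V) * F V := (hF.comp (cont_refl i).measurable).mul hF
  rw [nuT_int μ β hm.meas]
  have hcont : ∀ x : Fin d → ZMod l, ∀ j k, Continuous fun U : Lk (ZMod l) d → S3 =>
      2 * (plq U x j k : ℍ[ℝ]).re := fun x j k => by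
    have h : ∀ y : Lk (ZMod l) d, Continuous fun V : Lk (ZMod l) d → S3 => V y :=
      fun y => continuous_apply y
    unfold plq
    exact continuous_const.mul (continuous_re.comp (continuous_subtype_val.comp
      ((((h _).mul (h _)).mul (h _).inv).mul (h _).inv)))
  have cA : Continuous (Ap i h : (Lk (ZMod l) d → S3) → ℝ) := by
    classical
    unfold Ap
    refine continuous_finsetSum _ fun j _ => continuous_finsetSum _ fun k _ =>
      continuous_finsetSum _ fun x _ => ?_
    split_ifs
    · exact hcont x j k
    · exact continuous_const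
  have c0 : Continuous (A0 i h : (Lk (ZMod l) d → S3) → ℝ) := by
    classical
    unfold A0
    refine continuous_finsetSum _ fun j _ => continuous_finsetSum _ fun k _ =>
      continuous_finsetSum _ fun x _ => ?_
    split_ifs
    · exact hcont x j k
    · exact continuous_const
  have key := rp_abs μ (disj (l := l) (h := h) i) (mp_refl i μ) (Φ := fun U => F (per U) *
    Real.exp (β * Ap i h U)) (W := fun U => Real.exp (β * A0 i h U)) (fun U U' hU x hx => ?_)
    (fun U x h1 h2 => ?_) ((hF.comp cont_per.measurable).mul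
      (BM.of_cont (Real.continuous_exp.comp (continuous_const.mul cA))))
    (BM.of_cont (Real.continuous_exp.comp (continuous_const.mul c0)))
    (fun U => (Real.exp_pos _).le) (fun U U' hU => ?_) (fun U U' hU => ?_)
  rotate_left
  · have := hU _ (rl_mem i hl hx)
    unfold refl
    rw [this]
  · obtain ⟨h3, h4⟩ := rl_fix i hl h1 h2
    unfold refl
    rw [if_neg h3, h4]
  · have e1 : F (per U) = F (per U') := by
      refine hFd _ _ fun e he => ?_
      rw [per_apply, per_apply]
      refine hU _ ?_
      rw [mem_MM]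
      have h3 := hB e he
      have h4 : ((red l e).1 i).val = (e.1 i).toNat := by
        show ((e.1 i : ℤ) : ZMod l).val = _
        have h5 : (((e.1 i).toNat : ℕ) : ℤ) = e.1 i := by omega
        conv_lhs => rw [← h5]
        rw [Int.cast_natCast, ZMod.val_natCast_of_lt (by omega)]
      rw [h4]
      split_ifs <;> omega
    show F (per U) * Real.exp (β * Ap i h U) = F (per U') * Real.exp (β * Ap i h U')
    rw [e1, Ap_dep i hl U U' hU]
  · show Real.exp (β * A0 i h U) = Real.exp (β * A0 i h U')
    rw [A0_dep i hl U U' hU]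
  refine div_nonneg ?_ (integral_nonneg fun U => (Real.exp_pos _).le)
  refine key.trans (le_of_eq (integral_congr_ae (Eventually.of_forall fun U => ?_)))
  simp only
  rw [act_split i hl U, mul_add, mul_add, Real.exp_add, Real.exp_add, per_refl]
  ring

end

end Pool.Agent.Q234.SC
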