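import Pool.Agent.Q234.SC.Cons

/-!
# The theories on the periodic lattices
-/

namespace Pool.Agent.Q234.SC

open MeasureTheory Quaternion Function Pool.Agent.H556R4.Dob Pool.Agent.H556R4.SU2
open scoped Topology

set_option linter.unusedSectionVars false
set_option autoImplicit false

section

variable {d l : ℕ}

/-- the periodic extension -/
def per (U : Lk (ZMod l) d → S3) : Lk ℤ d → S3 := fun e => U (fun i => (e.1 i : ZMod l), e.2)

/-- the exponent of the Wilson weight, `Re tr = 2 re` -/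
noncomputable def act [NeZero l] (U : Lk (ZMod l) d → S3) : ℝ :=
  ∑ x : Fin d → ZMod l, ∑ i : Fin d, ∑ j : Fin d,
    if i < j then 2 * (plq U x i j : ℍ[ℝ]).re else 0

/-- reduction of links -/
def red (l : ℕ) (e : Lk ℤ d) : Lk (ZMod l) d := (fun i => (e.1 i : ZMod l), e.2)

lemma per_apply (U : Lk (ZMod l) d → S3) (e : Lk ℤ d) : per U e = U (red l e) := rfl

lemma cast_un (j : Fin d) (z : Fin d → ℤ) :
    (fun i => (((z + un ℤ j) i : ℤ) : ZMod l)) = (fun i => (z i : ZMod l)) + un (ZMod l) j := by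
  funext i
  simp only [Pi.add_apply, un, Pi.single_apply]
  split_ifs <;> simp

lemma cast_un' (j : Fin d) (z : Fin d → ℤ) :
    (fun i => (((z - un ℤ j) i : ℤ) : ZMod l)) = (fun i => (z i : ZMod l)) - un (ZMod l) j := by
  funext i
  simp only [Pi.sub_apply, un, Pi.single_apply]
  split_ifs <;> simp

lemma fl_per (β : ℝ) (e : Lk ℤ d) (U : Lk (ZMod l) d → S3) :
    fl β e (per U) = fl β (red l e) U := by
  unfold fl stp stm
  simp only [per_apply, red, cast_un, cast_un']

lemma inner_first (g b c d' : S3) :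
    ((g * b * c⁻¹ * d'⁻¹ : S3) : ℍ[ℝ]).re = inner ℝ ((d' * c * b⁻¹ : S3) : ℍ[ℝ]) (g : ℍ[ℝ]) := by
  simp only [Metric.unitSphere.coe_mul, coe_inv, inner_def]
  rw [← Quaternion.re_star]
  simp only [star_mul, star_star, mul_assoc]

lemma inner_second (a g c d' : S3) :
    ((a * g * c⁻¹ * d'⁻¹ : S3) : ℍ[ℝ]).re = inner ℝ ((a⁻¹ * d' * c : S3) : ℍ[ℝ]) (g : ℍ[ℝ]) := by
  simp only [Metric.unitSphere.coe_mul, coe_inv, inner_def]
  rw [← Quaternion.re_star]
  simp only [star_mul, star_star, mul_assoc]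
  rw [← mul_assoc, ← mul_assoc, re_cyc]
  simp only [mul_assoc]

lemma inner_third (a b g d' : S3) :
    ((a * b * g⁻¹ * d'⁻¹ : S3) : ℍ[ℝ]).re = inner ℝ ((d'⁻¹ * a * b : S3) : ℍ[ℝ]) (g : ℍ[ℝ]) := by
  simp only [Metric.unitSphere.coe_mul, coe_inv, inner_def]
  rw [re_cyc]
  simp only [mul_assoc]

lemma inner_fourth (a b c g : S3) :
    ((a * b * c⁻¹ * g⁻¹ : S3) : ℍ[ℝ]).re = inner ℝ ((a * b * c⁻¹ : S3) : ℍ[ℝ]) (g : ℍ[ℝ]) := by
  simp only [Metric.unitSphere.coe_mul, coe_inv, inner_def]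

lemma un_ne [Fact (1 < l)] (j : Fin d) : un (ZMod l) j ≠ 0 := by
  intro h
  have := congrFun h j
  simp [un] at this

/-- the plaquette variables as functions of one link -/
lemma plq_upd [Fact (1 < l)] (U : Lk (ZMod l) d → S3) (e : Lk (ZMod l) d) (x : Fin d → ZMod l)
    {i j : Fin d} (hij : i ≠ j) : ∃ c : ℝ, ∀ g : S3,
    (plq (update U e g) x i j : ℍ[ℝ]).re = c +
      (if (x, i) = e then inner ℝ (stp U x i j : ℍ[ℝ]) (g : ℍ[ℝ]) else 0) +
      (if (x + un (ZMod l) i, j) = e then inner ℝ (stm U (x + un (ZMod l) i) j i : ℍ[ℝ]) (g : ℍ[ℝ])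
        else 0) +
      (if (x + un (ZMod l) j, i) = e then inner ℝ (stm U (x + un (ZMod l) j) i j : ℍ[ℝ]) (g : ℍ[ℝ])
        else 0) +
      (if (x, j) = e then inner ℝ (stp U x j i : ℍ[ℝ]) (g : ℍ[ℝ]) else 0) := by
  have n12 : (x, i) ≠ (x + un (ZMod l) i, j) := fun h => hij (congrArg Prod.snd h)
  have n13 : (x, i) ≠ (x + un (ZMod l) j, i) := fun h => by
    have := congrArg Prod.fst h
    simp only [left_eq_add] at this
    exact un_ne _ this
  have n14 : (x, i) ≠ (x, j) := fun h => hij (congrArg Prod.snd h)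
  have n23 : (x + un (ZMod l) i, j) ≠ (x + un (ZMod l) j, i) := fun h =>
    hij (congrArg Prod.snd h).symm
  have n24 : (x + un (ZMod l) i, j) ≠ (x, j) := fun h => by
    have := congrArg Prod.fst h
    simp only [add_eq_left] at this
    exact un_ne _ this
  have n34 : (x + un (ZMod l) j, i) ≠ (x, j) := fun h => hij (congrArg Prod.snd h)
  by_cases h1 : (x, i) = e
  · subst h1
    refine ⟨0, fun g => ?_⟩
    rw [if_pos rfl, if_neg n12.symm, if_neg n13.symm, if_neg n14.symm]
    unfold plq stp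
    rw [update_self, update_of_ne n12.symm, update_of_ne n13.symm, update_of_ne n14.symm,
      inner_first]
    ring
  by_cases h2 : (x + un (ZMod l) i, j) = e
  · subst h2
    refine ⟨0, fun g => ?_⟩
    rw [if_neg h1, if_pos rfl, if_neg n23.symm, if_neg n24.symm]
    unfold plq stm
    rw [update_self, update_of_ne n12, update_of_ne n23.symm, update_of_ne n24.symm,
      inner_second]
    simp only [add_sub_cancel_right]
    ring
  by_cases h3 : (x + un (ZMod l) j, i) = e
  · subst h3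
    refine ⟨0, fun g => ?_⟩
    rw [if_neg h1, if_neg h2, if_pos rfl, if_neg n34.symm]
    unfold plq stm
    rw [update_self, update_of_ne n13, update_of_ne n23, update_of_ne n34.symm,
      inner_third]
    simp only [add_sub_cancel_right]
    ring
  by_cases h4 : (x, j) = e
  · subst h4
    refine ⟨0, fun g => ?_⟩
    rw [if_neg h1, if_neg h2, if_neg h3, if_pos rfl]
    unfold plq stp
    rw [update_self, update_of_ne n14, update_of_ne n24, update_of_ne n34,
      inner_fourth]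
    ring
  · refine ⟨(plq U x i j : ℍ[ℝ]).re, fun g => ?_⟩
    rw [if_neg h1, if_neg h2, if_neg h3, if_neg h4]
    unfold plq
    rw [update_of_ne h1, update_of_ne h2, update_of_ne h3, update_of_ne h4]
    ring

/-- the weight as a function of one link -/
lemma act_upd [NeZero l] [Fact (1 < l)] (β : ℝ) (U : Lk (ZMod l) d → S3) (e : Lk (ZMod l) d) :
    ∃ c : ℝ, ∀ g : S3, β * act (update U e g) = c + inner ℝ (fl β e U) (g : ℍ[ℝ]) := by
  choose! c hc using fun (x : Fin d → ZMod l) (i j : Fin d) (hij : i ≠ j) =>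
    plq_upd U e x hij
  refine ⟨β * ∑ x : Fin d → ZMod l, ∑ i : Fin d, ∑ j : Fin d, (if i < j then 2 * c x i j else 0),
    fun g => ?_⟩
  have e1 : ∀ (x : Fin d → ZMod l) (i j : Fin d),
      (if i < j then 2 * (plq (update U e g) x i j : ℍ[ℝ]).re else 0) =
      (if i < j then 2 * c x i j else 0) +
      2 * (if x = e.1 then (if i = e.2 then (if i < j then inner ℝ (stp U x i j : ℍ[ℝ]) (g : ℍ[ℝ])
        else 0) else 0) else 0) +
      2 * (if x = e.1 - un (ZMod l) i then (if j = e.2 then (if i < j then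
        inner ℝ (stm U (x + un (ZMod l) i) j i : ℍ[ℝ]) (g : ℍ[ℝ]) else 0) else 0) else 0) +
      2 * (if x = e.1 - un (ZMod l) j then (if i = e.2 then (if i < j then
        inner ℝ (stm U (x + un (ZMod l) j) i j : ℍ[ℝ]) (g : ℍ[ℝ]) else 0) else 0) else 0) +
      2 * (if x = e.1 then (if j = e.2 then (if i < j then inner ℝ (stp U x j i : ℍ[ℝ]) (g : ℍ[ℝ])
        else 0) else 0) else 0) := by
    intro x i j
    by_cases hij : i < j
    · rw [if_pos hij, if_pos hij, hc x i j hij.ne g]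
      simp only [if_pos hij, Prod.ext_iff, eq_sub_iff_add_eq, ite_and]
      ring
    · simp [hij]
  unfold act
  simp only [e1, Finset.sum_add_distrib]
  have s1 : ∑ x : Fin d → ZMod l, ∑ i : Fin d, ∑ j : Fin d, 2 * (if x = e.1 then (if i = e.2 then
      (if i < j then inner ℝ (stp U x i j : ℍ[ℝ]) (g : ℍ[ℝ]) else 0) else 0) else 0) =
      ∑ j : Fin d, if e.2 < j then 2 * inner ℝ (stp U e.1 e.2 j : ℍ[ℝ]) (g : ℍ[ℝ]) else 0 := by
    rw [Finset.sum_eq_single e.1 (fun b _ hb => by simp [hb]) (by simp),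
      Finset.sum_eq_single e.2 (fun b _ hb => by simp [hb]) (by simp)]
    refine Finset.sum_congr rfl fun j _ => ?_
    simp
  have s4 : ∑ x : Fin d → ZMod l, ∑ i : Fin d, ∑ j : Fin d, 2 * (if x = e.1 then (if j = e.2 then
      (if i < j then inner ℝ (stp U x j i : ℍ[ℝ]) (g : ℍ[ℝ]) else 0) else 0) else 0) =
      ∑ j : Fin d, if j < e.2 then 2 * inner ℝ (stp U e.1 e.2 j : ℍ[ℝ]) (g : ℍ[ℝ]) else 0 := by
    rw [Finset.sum_eq_single e.1 (fun b _ hb => by simp [hb]) (by simp)]
    refine Finset.sum_congr rfl fun i _ => ?_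
    rw [Finset.sum_eq_single e.2 (fun b _ hb => by simp [hb]) (by simp)]
    simp
  have s3 : ∑ x : Fin d → ZMod l, ∑ i : Fin d, ∑ j : Fin d, 2 * (if x = e.1 - un (ZMod l) j then
      (if i = e.2 then (if i < j then inner ℝ (stm U (x + un (ZMod l) j) i j : ℍ[ℝ]) (g : ℍ[ℝ])
        else 0) else 0) else 0) =
      ∑ j : Fin d, if e.2 < j then 2 * inner ℝ (stm U e.1 e.2 j : ℍ[ℝ]) (g : ℍ[ℝ]) else 0 := by
    rw [Finset.sum_comm, Finset.sum_eq_single e.2 (fun b _ hb => by simp [hb]) (by simp),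
      Finset.sum_comm]
    refine Finset.sum_congr rfl fun j _ => ?_
    rw [Finset.sum_eq_single (e.1 - un (ZMod l) j) (fun b _ hb => by simp [hb]) (by simp)]
    simp
  have s2 : ∑ x : Fin d → ZMod l, ∑ i : Fin d, ∑ j : Fin d, 2 * (if x = e.1 - un (ZMod l) i then
      (if j = e.2 then (if i < j then inner ℝ (stm U (x + un (ZMod l) i) j i : ℍ[ℝ]) (g : ℍ[ℝ])
        else 0) else 0) else 0) =
      ∑ j : Fin d, if j < e.2 then 2 * inner ℝ (stm U e.1 e.2 j : ℍ[ℝ]) (g : ℍ[ℝ]) else 0 := by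
    rw [Finset.sum_comm]
    refine Finset.sum_congr rfl fun i _ => ?_
    rw [Finset.sum_eq_single (e.1 - un (ZMod l) i) (fun b _ hb => by simp [hb]) (by simp),
      Finset.sum_eq_single e.2 (fun b _ hb => by simp [hb]) (by simp)]
    simp
  rw [s1, s2, s3, s4]
  unfold fl
  rw [real_inner_smul_left, sum_inner]
  have hsplit : ∀ f : Fin d → ℝ, (∑ j : Fin d, if e.2 < j then f j else 0) +
      (∑ j : Fin d, if j < e.2 then f j else 0) = ∑ j ∈ Finset.univ.erase e.2, f j := by
    intro f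
    rw [← Finset.sum_add_distrib, ← Finset.add_sum_erase _ _ (Finset.mem_univ e.2)]
    simp only [lt_irrefl, if_false, add_zero, zero_add]
    refine Finset.sum_congr rfl fun j hj => ?_
    have hj' := Finset.ne_of_mem_erase hj
    rcases lt_or_gt_of_ne hj' with h | h
    · rw [if_neg h.le.not_gt, if_pos h, zero_add]
    · rw [if_pos h, if_neg h.le.not_gt, add_zero]
  have h1 := hsplit fun j => 2 * inner ℝ (stp U e.1 e.2 j : ℍ[ℝ]) (g : ℍ[ℝ])
  have h2 := hsplit fun j => 2 * inner ℝ (stm U e.1 e.2 j : ℍ[ℝ]) (g : ℍ[ℝ])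
  simp only [inner_add_left, Finset.sum_add_distrib]
  rw [← Finset.mul_sum] at h1 h2
  linear_combination β * h1 + β * h2

end

end Pool.Agent.Q234.SC
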