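import Pool.Agent.Q234.SC.Tor

/-!
# The theories on the periodic lattices satisfy the single site equations
-/

namespace Pool.Agent.Q234.SC

open MeasureTheory Quaternion Function Pool.Agent.H556R4.Dob Pool.Agent.H556R4.SU2
open scoped Topology

set_option linter.unusedSectionVars false
set_option autoImplicit false

section

variable {d l : ℕ}

lemma cont_act [NeZero l] : Continuous (act : (Lk (ZMod l) d → S3) → ℝ) := by
  unfold act plq
  refine continuous_finsetSum _ fun x _ => continuous_finsetSum _ fun i _ =>
    continuous_finsetSum _ fun j _ => ?_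
  split_ifs
  · have h : ∀ y : Lk (ZMod l) d, Continuous fun V : Lk (ZMod l) d → S3 => V y :=
      fun y => continuous_apply y
    exact continuous_const.mul (continuous_re.comp (continuous_subtype_val.comp
      ((((h _).mul (h _)).mul (h _).inv).mul (h _).inv)))
  · exact continuous_const

lemma cont_per : Continuous (per : (Lk (ZMod l) d → S3) → Lk ℤ d → S3) :=
  continuous_pi fun _ => continuous_apply _

lemma red_inj {n : ℕ} (hl : 2 * n < l) {x y : Lk ℤ d} (hx : x ∈ lks d n) (hy : y ∈ lks d n)
    (h : red l x = red l y) : x = y := by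
  have h2 : (red l x).2 = (red l y).2 := congrArg Prod.snd h
  have h2' : x.2 = y.2 := h2
  have h1 : x.1 = y.1 := by
    funext i
    have h3 : (red l x).1 i = (red l y).1 i := congrFun (congrArg Prod.fst h) i
    change ((x.1 i : ℤ) : ZMod l) = (y.1 i : ZMod l) at h3
    rw [ZMod.intCast_eq_intCast_iff_dvd_sub] at h3
    have hx' := mem_lks.1 hx i
    have hy' := mem_lks.1 hy i
    obtain ⟨k, hk⟩ := h3
    have hl' : (2 * n : ℤ) < l := by exact_mod_cast hl
    have hk0 : k = 0 := by
      by_contra hk0
      rcases lt_or_gt_of_ne hk0 with h4 | h4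
      · have : (l : ℤ) * k ≤ -l := by nlinarith
        omega
      · have : (l : ℤ) ≤ l * k := by nlinarith
        omega
    rw [hk0, mul_zero] at hk
    omega
  exact Prod.ext h1 h2'

lemma per_upd {n : ℕ} (hl : 2 * n < l) {x : Lk ℤ d} (hx : x ∈ lks d n) (U : Lk (ZMod l) d → S3)
    (g : S3) : ∀ y ∈ lks d n, per (update U (red l x) g) y = update (per U) x g y := by
  intro y hy
  by_cases h : y = x
  · subst h
    rw [per_apply, update_self, update_self]
  · rw [per_apply, update_of_ne h, update_of_ne, per_apply]
    intro h'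
    exact h (red_inj hl hy hx h')

end

section

variable {d l : ℕ} [NeZero l] [MeasurableSpace S3] [BorelSpace S3]
  (μ : Measure S3) [IsProbabilityMeasure μ]

/-- the state on the periodic lattice -/
noncomputable def nuT (d l : ℕ) [NeZero l] (β : ℝ) : Measure (Lk ℤ d → S3) :=
  ((Measure.pi fun _ => μ).tilted fun U : Lk (ZMod l) d → S3 => β * act U).map per

lemma bm_w' (β : ℝ) : BM fun U : Lk (ZMod l) d → S3 => Real.exp (β * act U) :=
  BM.of_cont (Real.continuous_exp.comp (continuous_const.mul cont_act))

lemma nuT_prob (β : ℝ) : IsProbabilityMeasure (nuT μ d l β) := by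
  unfold nuT
  have h1 := isProbabilityMeasure_tilted (μ := (Measure.pi fun _ : Lk (ZMod l) d => μ))
    (f := fun U : Lk (ZMod l) d → S3 => β * act U) ((bm_w' β).integrable _)
  exact Measure.isProbabilityMeasure_map cont_per.measurable.aemeasurable

lemma nuT_int (β : ℝ) {F : (Lk ℤ d → S3) → ℝ} (hF : Measurable F) :
    ∫ V, F V ∂(nuT μ d l β) =
      (∫ U : Lk (ZMod l) d → S3, F (per U) * Real.exp (β * act U) ∂(Measure.pi fun _ => μ)) /
        ∫ U : Lk (ZMod l) d → S3, Real.exp (β * act U) ∂(Measure.pi fun _ => μ) := by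
  unfold nuT
  rw [integral_map cont_per.measurable.aemeasurable hF.aestronglyMeasurable, integral_tilted,
    ← integral_div]
  refine integral_congr_ae (Filter.Eventually.of_forall fun U => ?_)
  simp only [smul_eq_mul]
  ring

variable [μ.IsMulLeftInvariant] [μ.IsMulRightInvariant] [μ.IsInvInvariant]

theorem nuT_gib (β : ℝ) {n : ℕ} (hl : 2 * (n + 1) < l) : Gib μ β n (nuT μ d l β) where
  prob := nuT_prob μ β
  inv x hx f hf hfd := by
    have hl1 : Fact (1 < l) := ⟨by omega⟩
    have hhb : BM (hb μ (fl (R := ℤ) β) x f) := hb_bm μ (meas_in β x) hf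
    rw [nuT_int μ β hhb.meas, nuT_int μ β hf.meas]
    congr 1
    have hm1 : BM fun U : Lk (ZMod l) d → S3 => hb μ (fl (R := ℤ) β) x f (per U) *
        Real.exp (β * act U) := (hhb.comp cont_per.measurable).mul (bm_w' β)
    have hm2 : BM fun U : Lk (ZMod l) d → S3 => f (per U) * Real.exp (β * act U) :=
      (hf.comp cont_per.measurable).mul (bm_w' β)
    rw [integral_update μ (red l x) _ hm1, integral_update μ (red l x) _ hm2]
    refine integral_congr_ae (Filter.Eventually.of_forall fun U => ?_)
    simp only
    obtain ⟨c, hc⟩ := act_upd β U (red l x)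
    have hx1 : x ∈ lks d (n + 1) := lks_mono (Nat.le_succ n) hx
    have hfld := fld_ok (d := d) β n {x} (by simpa using hx)
    have e0 : ∀ g, hb μ (fl (R := ℤ) β) x f (per (update U (red l x) g)) =
        hb μ (fl (R := ℤ) β) x f (per U) := by
      intro g
      have h1 : fl β x (per (update U (red l x) g)) = fl β x (per U) := by
        rw [hfld.dep x (by simp) _ _ (per_upd hl hx1 U g), hfld.self x (by simp)]
      unfold hb
      rw [h1]
      congr 1
      funext s
      refine hfd _ _ fun y hy => ?_
      by_cases hyx : y = x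
      · subst hyx; simp
      · rw [update_of_ne hyx, update_of_ne hyx, per_upd hl hx1 U g y hy, update_of_ne hyx]
    have e1 : ∀ g, f (per (update U (red l x) g)) = f (update (per U) x g) := fun g =>
      hfd _ _ (per_upd hl hx1 U g)
    simp only [e0, e1, hc, Real.exp_add, ← fl_per]
    rw [integral_const_mul, integral_const_mul]
    have e2 : ∫ g : S3, f (update (per U) x g) * (Real.exp c *
        Real.exp (inner ℝ (fl β x (per U)) (g : ℍ[ℝ]))) ∂μ = Real.exp c *
        ∫ g : S3, f (update (per U) x g) *
          Real.exp (inner ℝ (fl β x (per U)) (g : ℍ[ℝ])) ∂μ := by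
      rw [← integral_const_mul]
      refine integral_congr_ae (Filter.Eventually.of_forall fun g => ?_)
      simp only
      ring
    rw [e2]
    unfold hb Eh Zs
    have hZ : 0 < ∫ s : S3, Real.exp (inner ℝ (fl β x (per U)) (s : ℍ[ℝ])) ∂μ := Zs_pos μ _
    field_simp

end

end Pool.Agent.Q234.SC
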